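import Pool.Agent.Helper52.KC.FM5
import Pool.Agent.Helper26.KC.F3
import Pool.Agent.Helper5.KC.FM3
import Pool.Agent.Helper65.KC.MV2
import Pool.Agent.Helper73.KC.FM1

/-!
# Project KS: the fourth moment of zeta on the critical line, unconditional
-/

namespace Pool.Agent.Helper52.KC

theorem fourth_moment : Pool.Agent.Helper26.KC.FourthMoment :=
  fourthMoment (Pool.Agent.Helper5.KC.mv4a Pool.Agent.Helper65.KC.mv2)
    (Pool.Agent.Helper5.KC.mv4b Pool.Agent.Helper65.KC.mv2)
    (Pool.Agent.Helper26.KC.afe Pool.Agent.Helper73.KC.ffBound)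

end Pool.Agent.Helper52.KC
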