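import Pool.Agent.Helper26.KC.StFM

/-!
# Project KS, module FM-5, part 2: the smoothed sum and the tails
-/

set_option autoImplicit false
open MeasureTheory Filter Topology Finset
open Pool.Agent.Helper26.KC

namespace Pool.Agent.Helper52.KC

/-- coefficients of the smoothed polynomial -/
noncomputable def aS (T : ℝ) (n : ℕ) : ℂ :=
  (((n : ℝ) ^ (-(1 / 2) : ℝ) * Phi (Real.log (Real.sqrt T) - Real.log n) : ℝ) : ℂ)

theorem norm_aS_le (T : ℝ) (n : ℕ) : ‖aS T n‖ ≤ (n : ℝ) ^ (-(1 / 2) : ℝ) := by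
  rw [aS, Complex.norm_real, Real.norm_eq_abs, abs_of_nonneg
    (mul_nonneg (Real.rpow_nonneg (Nat.cast_nonneg n) _) (Phi_nonneg _))]
  exact mul_le_of_le_one_right (Real.rpow_nonneg (Nat.cast_nonneg n) _) (Phi_le_one _)

theorem S1_term_eq (T t : ℝ) (m : ℕ) :
    ((m : ℂ) + 1) ^ (-(1 / 2 + (t : ℂ) * Complex.I)) *
      (Phi (Real.log (Real.sqrt T) - Real.log ((m : ℝ) + 1)) : ℂ) =
    aS T (m + 1) * ((m + 1 : ℕ) : ℂ) ^ (((-t : ℝ) : ℂ) * Complex.I) := by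
  have hm : ((m + 1 : ℕ) : ℂ) ≠ 0 := by exact_mod_cast Nat.succ_ne_zero m
  have h1 : -(1 / 2 + (t : ℂ) * Complex.I) = ((-(1 / 2) : ℝ) : ℂ) + ((-t : ℝ) : ℂ) * Complex.I := by
    push_cast; ring
  have h2 : ((m : ℂ) + 1) = ((m + 1 : ℕ) : ℂ) := by push_cast; ring
  rw [h2, h1, Complex.cpow_add _ _ hm, aS]
  have h3 : ((m + 1 : ℕ) : ℂ) ^ ((-(1 / 2) : ℝ) : ℂ) = ((((m + 1 : ℕ) : ℝ) ^ (-(1 / 2) : ℝ) : ℝ) : ℂ) := by
    rw [Complex.ofReal_cpow (Nat.cast_nonneg _)]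
    push_cast
    rfl
  rw [h3]
  push_cast
  ring

theorem norm_S1_term (T t : ℝ) (m : ℕ) :
    ‖aS T (m + 1) * ((m + 1 : ℕ) : ℂ) ^ (((-t : ℝ) : ℂ) * Complex.I)‖ =
      ((m : ℝ) + 1) ^ (-(1 / 2) : ℝ) * Phi (Real.log (Real.sqrt T) - Real.log ((m : ℝ) + 1)) := by
  rw [norm_mul, Complex.norm_natCast_cpow_of_pos (Nat.succ_pos m)]
  have : ((((-t : ℝ) : ℂ) * Complex.I)).re = 0 := by simp
  rw [this, Real.rpow_zero, mul_one, aS, Complex.norm_real, Real.norm_eq_abs, abs_of_nonneg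
    (mul_nonneg (Real.rpow_nonneg (Nat.cast_nonneg _) _) (Phi_nonneg _))]
  push_cast
  rfl

theorem summable_sq : Summable (fun m : ℕ => ((m : ℝ) + 1) ^ (-2 : ℝ)) := by
  have h := (Real.summable_nat_rpow (p := -2)).mpr (by norm_num)
  have := (summable_nat_add_iff 1).mpr h
  refine this.congr fun m => ?_
  push_cast
  rfl

/-- the terms are bounded by `B (m+1)^(-2)` -/
theorem S1_term_le {K : ℝ} (hK : 1 ≤ K) {T : ℝ} (hT : 1 ≤ T) (t : ℝ) (m : ℕ) :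
    ‖aS T (m + 1) * ((m + 1 : ℕ) : ℂ) ^ (((-t : ℝ) : ℂ) * Complex.I)‖ ≤
      Real.exp (K ^ 2) * (Real.sqrt T) ^ K * ((m : ℝ) + 1) ^ (-(1 / 2) - K) := by
  have hm : (0 : ℝ) < (m : ℝ) + 1 := by positivity
  have hs : 0 < Real.sqrt T := Real.sqrt_pos.mpr (by linarith)
  rw [norm_S1_term]
  have h1 := Phi_le K hK (Real.log (Real.sqrt T) - Real.log ((m : ℝ) + 1))
  calc ((m : ℝ) + 1) ^ (-(1 / 2) : ℝ) * Phi (Real.log (Real.sqrt T) - Real.log ((m : ℝ) + 1))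
      ≤ ((m : ℝ) + 1) ^ (-(1 / 2) : ℝ) *
        Real.exp (K ^ 2 + K * (Real.log (Real.sqrt T) - Real.log ((m : ℝ) + 1))) := by gcongr
    _ = Real.exp (K ^ 2) * (Real.sqrt T) ^ K * ((m : ℝ) + 1) ^ (-(1 / 2) - K) := by
        rw [Real.rpow_sub hm, Real.rpow_def_of_pos hs, Real.rpow_def_of_pos hm K, Real.exp_add,
          mul_sub, Real.exp_sub, mul_comm K (Real.log (Real.sqrt T)),
          mul_comm K (Real.log ((m : ℝ) + 1))]
        ring

theorem S1_bound {e : ℝ} (he : 0 < e) : ∃ C : ℝ, 0 < C ∧ ∀ (T t : ℝ) (L : ℕ), 1 ≤ T →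
    Real.sqrt T * T ^ e ≤ L → ‖S1 (Real.sqrt T) t‖ ≤
      ‖∑ n ∈ Icc 1 L, aS T n * (n : ℂ) ^ (((-t : ℝ) : ℂ) * Complex.I)‖ + C := by
  set K : ℝ := 3 / 2 + 3 / (4 * e) with hKdef
  have hK0 : 0 < 3 / (4 * e) := by positivity
  have hK1 : 3 / 2 ≤ K := by rw [hKdef]; linarith
  have hKe : e * (K - 3 / 2) = 3 / 4 := by rw [hKdef]; field_simp; ring
  set Z : ℝ := ∑' m : ℕ, ((m : ℝ) + 1) ^ (-2 : ℝ) with hZ
  have hZ0 : 0 ≤ Z := tsum_nonneg fun m => by positivity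
  refine ⟨Real.exp (K ^ 2) * Z + 1, by positivity, ?_⟩
  intro T t L hT hL
  have hT0 : 0 < T := by linarith
  have hs1 : 1 ≤ Real.sqrt T := Real.one_le_sqrt.mpr hT
  have hs0 : 0 < Real.sqrt T := by linarith
  have hTe : 1 ≤ T ^ e := Real.one_le_rpow hT he.le
  have hL1 : (1 : ℝ) ≤ L := le_trans (by nlinarith) hL
  set f : ℕ → ℂ := fun m => aS T (m + 1) * ((m + 1 : ℕ) : ℂ) ^ (((-t : ℝ) : ℂ) * Complex.I) with hf
  have hS : S1 (Real.sqrt T) t = ∑' m, f m := by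
    rw [S1]
    exact tsum_congr fun m => S1_term_eq T t m
  have hb1 : ∀ m, ‖f m‖ ≤ Real.exp (K ^ 2) * (Real.sqrt T) ^ K * ((m : ℝ) + 1) ^ (-2 : ℝ) := by
    intro m
    refine (S1_term_le (K := K) (by linarith) hT t m).trans ?_
    apply mul_le_mul_of_nonneg_left _ (by positivity)
    apply Real.rpow_le_rpow_of_exponent_le
    · have : (0 : ℝ) ≤ m := Nat.cast_nonneg m
      linarith
    · linarith
  have hsum : Summable (fun m => ‖f m‖) :=
    Summable.of_nonneg_of_le (fun m => norm_nonneg _) hb1 (summable_sq.mul_left _)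
  have hsf : Summable f := hsum.of_norm
  rw [hS, ← hsf.sum_add_tsum_nat_add L]
  refine (norm_add_le _ _).trans ?_
  apply add_le_add
  · apply le_of_eq
    congr 1
    rw [Finset.range_eq_Ico, Finset.sum_Ico_add' (fun n : ℕ => aS T n *
      (n : ℂ) ^ (((-t : ℝ) : ℂ) * Complex.I)) 0 L 1]
    apply Finset.sum_congr _ fun _ _ => rfl
    ext n
    simp only [Finset.mem_Ico, Finset.mem_Icc]
    omega
  · have hb2 : ∀ m, ‖f (m + L)‖ ≤ Real.exp (K ^ 2) * ((m : ℝ) + 1) ^ (-2 : ℝ) := by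
      intro m
      refine (S1_term_le (K := K) (by linarith) hT t (m + L)).trans ?_
      have hm : (0 : ℝ) < (m : ℝ) + 1 := by positivity
      have hmL : (0 : ℝ) < ((m + L : ℕ) : ℝ) + 1 := by positivity
      have e1 : (((m + L : ℕ) : ℝ) + 1) ^ (-(1 / 2) - K) =
          (((m + L : ℕ) : ℝ) + 1) ^ (-(K - 3 / 2)) * (((m + L : ℕ) : ℝ) + 1) ^ (-2 : ℝ) := by
        rw [← Real.rpow_add hmL]; congr 1; ring
      have e2 : (((m + L : ℕ) : ℝ) + 1) ^ (-2 : ℝ) ≤ ((m : ℝ) + 1) ^ (-2 : ℝ) := by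
        apply Real.rpow_le_rpow_of_nonpos hm _ (by norm_num)
        push_cast
        linarith
      have e3 : (((m + L : ℕ) : ℝ) + 1) ^ (-(K - 3 / 2)) ≤ (Real.sqrt T * T ^ e) ^ (-(K - 3 / 2)) := by
        apply Real.rpow_le_rpow_of_nonpos (by positivity) _ (by linarith)
        push_cast
        have : (0 : ℝ) ≤ m := Nat.cast_nonneg m
        linarith
      have e4 : (Real.sqrt T) ^ K * (Real.sqrt T * T ^ e) ^ (-(K - 3 / 2)) = 1 := by
        rw [Real.mul_rpow hs0.le (by positivity), ← mul_assoc, ← Real.rpow_add hs0,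
          ← Real.rpow_mul hT0.le, show K + -(K - 3 / 2) = 3 / 2 by ring,
          show e * -(K - 3 / 2) = -(3 / 4) by rw [mul_neg, hKe], Real.sqrt_eq_rpow,
          ← Real.rpow_mul hT0.le, ← Real.rpow_add hT0]
        norm_num
      rw [e1]
      calc Real.exp (K ^ 2) * (Real.sqrt T) ^ K * ((((m + L : ℕ) : ℝ) + 1) ^ (-(K - 3 / 2)) *
            (((m + L : ℕ) : ℝ) + 1) ^ (-2 : ℝ))
          ≤ Real.exp (K ^ 2) * (Real.sqrt T) ^ K * ((Real.sqrt T * T ^ e) ^ (-(K - 3 / 2)) *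
            ((m : ℝ) + 1) ^ (-2 : ℝ)) := by gcongr
        _ = Real.exp (K ^ 2) * ((Real.sqrt T) ^ K * (Real.sqrt T * T ^ e) ^ (-(K - 3 / 2))) *
            ((m : ℝ) + 1) ^ (-2 : ℝ) := by ring
        _ = _ := by rw [e4, mul_one]
    have hs2 : Summable (fun m => ‖f (m + L)‖) :=
      Summable.of_nonneg_of_le (fun m => norm_nonneg _) hb2 (summable_sq.mul_left _)
    calc ‖∑' m, f (m + L)‖ ≤ ∑' m, ‖f (m + L)‖ := norm_tsum_le_tsum_norm hs2
      _ ≤ ∑' m : ℕ, Real.exp (K ^ 2) * ((m : ℝ) + 1) ^ (-2 : ℝ) :=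
        hs2.tsum_le_tsum hb2 (summable_sq.mul_left _)
      _ = Real.exp (K ^ 2) * Z := by rw [tsum_mul_left]
      _ ≤ _ := by linarith

/-- the tail of the series of `ζ(5/4 - iu)` -/
theorem tail54 : ∃ C : ℝ, 0 < C ∧ ∀ (T u : ℝ) (M L : ℕ), 1 ≤ T → M ≤ L → T ^ 8 ≤ L →
    ‖∑' m : ℕ, ((m : ℂ) + M + 1) ^ ((-(5 / 4) : ℂ) + (u : ℂ) * Complex.I)‖ ≤
      ‖∑ n ∈ Ioc M L, (((n : ℝ) ^ (-(5 / 4) : ℝ) : ℝ) : ℂ) * (n : ℂ) ^ ((u : ℂ) * Complex.I)‖ + C / T := by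
  have hs0 : Summable (fun m : ℕ => ((m : ℝ) + 1) ^ (-(9 / 8) : ℝ)) := by
    have h := (Real.summable_nat_rpow (p := -(9 / 8))).mpr (by norm_num)
    have := (summable_nat_add_iff 1).mpr h
    refine this.congr fun m => ?_
    push_cast
    rfl
  set Z : ℝ := ∑' m : ℕ, ((m : ℝ) + 1) ^ (-(9 / 8) : ℝ) with hZ
  have hZ0 : 0 ≤ Z := tsum_nonneg fun m => by positivity
  refine ⟨Z + 1, by positivity, ?_⟩
  intro T u M L hT hML hL
  have hT0 : 0 < T := by linarith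
  set g : ℕ → ℂ := fun n => (((n : ℝ) ^ (-(5 / 4) : ℝ) : ℝ) : ℂ) *
    (n : ℂ) ^ ((u : ℂ) * Complex.I) with hg
  have hterm : ∀ m : ℕ, ((m : ℂ) + M + 1) ^ ((-(5 / 4) : ℂ) + (u : ℂ) * Complex.I) =
      g (m + (M + 1)) := by
    intro m
    have hm : ((m + (M + 1) : ℕ) : ℂ) ≠ 0 := by
      have : m + (M + 1) ≠ 0 := by omega
      exact_mod_cast this
    have h2 : ((m : ℂ) + M + 1) = ((m + (M + 1) : ℕ) : ℂ) := by push_cast; ring
    rw [h2, Complex.cpow_add _ _ hm, hg]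
    simp only
    congr 1
    rw [Complex.ofReal_cpow (Nat.cast_nonneg _)]
    push_cast
    rfl
  have hnorm : ∀ n : ℕ, 0 < n → ‖g n‖ = (n : ℝ) ^ (-(5 / 4) : ℝ) := by
    intro n hn
    rw [hg]
    simp only
    rw [norm_mul, Complex.norm_natCast_cpow_of_pos hn]
    have : (((u : ℂ) * Complex.I)).re = 0 := by simp
    rw [this, Real.rpow_zero, mul_one, Complex.norm_real, Real.norm_eq_abs, abs_of_nonneg
      (Real.rpow_nonneg (Nat.cast_nonneg _) _)]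
  have hb : ∀ A m : ℕ, ‖g (m + (A + 1))‖ ≤ ((m : ℝ) + 1) ^ (-(9 / 8) : ℝ) := by
    intro A m
    rw [hnorm _ (by omega)]
    have h1 : (1 : ℝ) ≤ (m : ℝ) + 1 := by
      have : (0 : ℝ) ≤ m := Nat.cast_nonneg m
      linarith
    calc ((m + (A + 1) : ℕ) : ℝ) ^ (-(5 / 4) : ℝ) ≤ ((m : ℝ) + 1) ^ (-(5 / 4) : ℝ) := by
          apply Real.rpow_le_rpow_of_nonpos (by positivity) _ (by norm_num)
          push_cast
          have : (0 : ℝ) ≤ A := Nat.cast_nonneg A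
          linarith
      _ ≤ ((m : ℝ) + 1) ^ (-(9 / 8) : ℝ) :=
          Real.rpow_le_rpow_of_exponent_le h1 (by norm_num)
  have hsum : Summable (fun m => g (m + (M + 1))) :=
    (Summable.of_nonneg_of_le (fun m => norm_nonneg _) (hb M) hs0).of_norm
  rw [tsum_congr hterm, ← hsum.sum_add_tsum_nat_add (L - M)]
  refine (norm_add_le _ _).trans ?_
  apply add_le_add
  · apply le_of_eq
    congr 1
    rw [Finset.range_eq_Ico, Finset.sum_Ico_add' g 0 (L - M) (M + 1)]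
    apply Finset.sum_congr _ fun _ _ => rfl
    ext n
    simp only [Finset.mem_Ico, Finset.mem_Ioc]
    omega
  · have hb2 : ∀ m, ‖g (m + (L - M) + (M + 1))‖ ≤ (1 / T) * ((m : ℝ) + 1) ^ (-(9 / 8) : ℝ) := by
      intro m
      have hidx : m + (L - M) + (M + 1) = m + (L + 1) := by omega
      rw [hidx, hnorm _ (by omega)]
      have hm : (0 : ℝ) < (m : ℝ) + 1 := by positivity
      have hmL : (0 : ℝ) < ((m + (L + 1) : ℕ) : ℝ) := by positivity
      have e1 : ((m + (L + 1) : ℕ) : ℝ) ^ (-(5 / 4) : ℝ) =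
          ((m + (L + 1) : ℕ) : ℝ) ^ (-(1 / 8) : ℝ) * ((m + (L + 1) : ℕ) : ℝ) ^ (-(9 / 8) : ℝ) := by
        rw [← Real.rpow_add hmL]; norm_num
      have e2 : ((m + (L + 1) : ℕ) : ℝ) ^ (-(9 / 8) : ℝ) ≤ ((m : ℝ) + 1) ^ (-(9 / 8) : ℝ) := by
        apply Real.rpow_le_rpow_of_nonpos hm _ (by norm_num)
        push_cast
        have : (0 : ℝ) ≤ L := Nat.cast_nonneg L
        linarith
      have e3 : ((m + (L + 1) : ℕ) : ℝ) ^ (-(1 / 8) : ℝ) ≤ 1 / T := by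
        have h8 : (T ^ 8) ^ (-(1 / 8) : ℝ) = 1 / T := by
          rw [← Real.rpow_natCast, ← Real.rpow_mul hT0.le]
          norm_num
          rw [Real.rpow_neg_one]
        rw [← h8]
        apply Real.rpow_le_rpow_of_nonpos (by positivity) _ (by norm_num)
        push_cast
        have : (0 : ℝ) ≤ m := Nat.cast_nonneg m
        linarith
      rw [e1]
      gcongr
    have hs2 : Summable (fun m => ‖g (m + (L - M) + (M + 1))‖) :=
      Summable.of_nonneg_of_le (fun m => norm_nonneg _) hb2 (hs0.mul_left _)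
    calc ‖∑' m, g (m + (L - M) + (M + 1))‖ ≤ ∑' m, ‖g (m + (L - M) + (M + 1))‖ :=
          norm_tsum_le_tsum_norm hs2
      _ ≤ ∑' m : ℕ, (1 / T) * ((m : ℝ) + 1) ^ (-(9 / 8) : ℝ) :=
        hs2.tsum_le_tsum hb2 (hs0.mul_left _)
      _ = (1 / T) * Z := by rw [tsum_mul_left]
      _ ≤ (Z + 1) / T := by
        rw [one_div, div_eq_inv_mul]
        gcongr
        linarith

end Pool.Agent.Helper52.KC
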