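import Pool.Agent.Helper52.KC.FMavg
import Pool.Agent.Helper52.KC.FMs1

/-!
# Project KS, module FM-5: the fourth moment of zeta from the smoothed functional equation
-/

set_option autoImplicit false
open MeasureTheory Filter Topology Finset
open Pool.Agent.Helper26.KC

namespace Pool.Agent.Helper52.KC

theorem gaussT {T : ℝ} (t : ℝ) :
    Real.exp (-(t / T) ^ 2) = Real.exp (-(1 / T ^ 2 * t ^ 2)) := by
  congr 1
  rw [div_pow]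
  ring

theorem bdd_integrable {g : ℝ → ℝ} (hc : Continuous g) (h0 : ∀ t, 0 ≤ g t) {B : ℝ}
    (hB : ∀ t, g t ≤ B) {T : ℝ} (hT : 0 < T) :
    Integrable (fun t => Real.exp (-(t / T) ^ 2) * g t) := by
  have hB0 : 0 ≤ B := (h0 0).trans (hB 0)
  have := poly_gauss_integrable (h := g) hc (K := B) (n := 0) hB0
    (fun v => by rw [abs_of_nonneg (h0 v), pow_zero, mul_one]; exact hB v) (b := 1 / T ^ 2)
    (by positivity)
  refine this.congr (Eventually.of_forall fun t => ?_)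
  simp only
  rw [gaussT, mul_comm]

theorem int_wT {T : ℝ} (hT : 0 < T) : ∫ t : ℝ, Real.exp (-(t / T) ^ 2) = Real.sqrt Real.pi * T := by
  have h : (fun t : ℝ => Real.exp (-(t / T) ^ 2)) = fun t => Real.exp (-(1 / T ^ 2) * t ^ 2) := by
    funext t; rw [gaussT]; congr 1; ring
  rw [h, integral_gaussian, show Real.pi / (1 / T ^ 2) = Real.pi * T ^ 2 by field_simp,
    Real.sqrt_mul Real.pi_pos.le, Real.sqrt_sq hT.le]

theorem int_w1 : ∫ t : ℝ, Real.exp (-(1 * t ^ 2)) = Real.sqrt Real.pi := by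
  have h : (fun t : ℝ => Real.exp (-(1 * t ^ 2))) = fun t => Real.exp (-1 * t ^ 2) := by
    funext t; congr 1; ring
  rw [h, integral_gaussian, div_one]

/-- polynomial growth against the Gaussian of width `T` -/
theorem growth {s T : ℝ} (hs0 : 0 ≤ s) (hs3 : s ≤ 3) (hT : 1 ≤ T) (u : ℝ) :
    Real.exp (-(u ^ 2 / (2 * T ^ 2))) * (1 + |u|) ^ s ≤
      Real.exp 9 * T ^ s * Real.exp (-(u / (2 * T)) ^ 2) := by
  have hT0 : 0 < T := by linarith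
  set x : ℝ := |u| / T with hx
  have hx0 : 0 ≤ x := by positivity
  have h1 : (1 + |u|) ≤ T * (1 + x) := by
    rw [hx, mul_add, mul_div_cancel₀ _ hT0.ne']
    linarith
  have h2 : (1 + |u|) ^ s ≤ T ^ s * (Real.exp 9 * Real.exp (1 / 4 * x ^ 2)) := by
    calc (1 + |u|) ^ s ≤ (T * (1 + x)) ^ s := Real.rpow_le_rpow (by positivity) h1 hs0
      _ = T ^ s * (1 + x) ^ s := Real.mul_rpow hT0.le (by positivity)
      _ ≤ T ^ s * (1 + x) ^ (3 : ℝ) := by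
          gcongr
          linarith
      _ ≤ T ^ s * (Real.exp 9 * Real.exp (1 / 4 * x ^ 2)) := by
          gcongr
          have h3 := pow_le_gauss 3 (b := 1 / 4) (by norm_num) hx0
          have h4 : (1 + x) ^ (3 : ℝ) = (1 + x) ^ 3 := by
            rw [← Real.rpow_natCast]; norm_num
          rw [h4]
          refine h3.trans (le_of_eq ?_)
          norm_num
  have h5 : Real.exp (-(u ^ 2 / (2 * T ^ 2))) * Real.exp (1 / 4 * x ^ 2) =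
      Real.exp (-(u / (2 * T)) ^ 2) := by
    rw [← Real.exp_add]
    congr 1
    rw [hx, div_pow, sq_abs, div_pow]
    field_simp
    ring
  calc Real.exp (-(u ^ 2 / (2 * T ^ 2))) * (1 + |u|) ^ s
      ≤ Real.exp (-(u ^ 2 / (2 * T ^ 2))) * (T ^ s * (Real.exp 9 * Real.exp (1 / 4 * x ^ 2))) := by
        gcongr
    _ = Real.exp 9 * T ^ s * (Real.exp (-(u ^ 2 / (2 * T ^ 2))) * Real.exp (1 / 4 * x ^ 2)) := by
        ring
    _ = _ := by rw [h5]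

theorem cont_poly (S : Finset ℕ) (a : ℕ → ℂ) (hS : ∀ n ∈ S, 1 ≤ n) :
    Continuous (fun u : ℝ => ∑ n ∈ S, a n * (n : ℂ) ^ ((u : ℂ) * Complex.I)) := by
  apply continuous_finsetSum
  intro n hn
  apply continuous_const.mul
  apply Continuous.const_cpow (by fun_prop)
  left
  have := hS n hn
  have : n ≠ 0 := by omega
  exact_mod_cast this

theorem bdd_poly (S : Finset ℕ) (a : ℕ → ℂ) (hS : ∀ n ∈ S, 1 ≤ n) (u : ℝ) :
    ‖∑ n ∈ S, a n * (n : ℂ) ^ ((u : ℂ) * Complex.I)‖ ≤ ∑ n ∈ S, ‖a n‖ := by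
  refine (norm_sum_le _ _).trans (Finset.sum_le_sum fun n hn => ?_)
  rw [norm_mul, Complex.norm_natCast_cpow_of_pos (by have := hS n hn; omega)]
  have : (((u : ℂ) * Complex.I)).re = 0 := by simp
  rw [this, Real.rpow_zero, mul_one]

theorem pow4_add2 (x y : ℝ) : (x + y) ^ 4 ≤ 8 * (x ^ 4 + y ^ 4) := by
  have h1 : (x + y) ^ 2 ≤ 2 * (x ^ 2 + y ^ 2) := by nlinarith [sq_nonneg (x - y)]
  have h2 : (x ^ 2 + y ^ 2) ^ 2 ≤ 2 * (x ^ 4 + y ^ 4) := by nlinarith [sq_nonneg (x ^ 2 - y ^ 2)]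
  calc (x + y) ^ 4 = ((x + y) ^ 2) ^ 2 := by ring
    _ ≤ (2 * (x ^ 2 + y ^ 2)) ^ 2 := pow_le_pow_left₀ (by positivity) h1 2
    _ = 4 * (x ^ 2 + y ^ 2) ^ 2 := by ring
    _ ≤ _ := by linarith

theorem pow4_add3 (x y z : ℝ) :
    (x + y + z) ^ 4 ≤ 64 * (x ^ 4 + y ^ 4 + z ^ 4) := by
  have h1 := pow4_add2 (x + y) z
  have h2 := pow4_add2 x y
  have h3 : 0 ≤ z ^ 4 := by positivity
  linarith

theorem ceil_le_two {x : ℝ} (hx : 1 ≤ x) : (⌈x⌉₊ : ℝ) ≤ 2 * x := by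
  have := Nat.ceil_lt_add_one (show 0 ≤ x by linarith)
  linarith

/-- numerical bound 1 -/
theorem num1 {e T : ℝ} (he : 0 < e) (he1 : e ≤ 1 / 16) (hT : 1 ≤ T) :
    (T * (⌈Real.sqrt T * T ^ e⌉₊ : ℝ)) ^ e * (T + (⌈Real.sqrt T * T ^ e⌉₊ : ℝ) ^ 2) ≤
      10 * T ^ (1 + 4 * e) := by
  have hT0 : 0 < T := by linarith
  have hs1 : 1 ≤ Real.sqrt T := Real.one_le_sqrt.mpr hT
  have hTe : 1 ≤ T ^ e := Real.one_le_rpow hT he.le
  have hx1 : 1 ≤ Real.sqrt T * T ^ e := by nlinarith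
  have hL := ceil_le_two hx1
  set L : ℝ := (⌈Real.sqrt T * T ^ e⌉₊ : ℝ) with hLdef
  have hL0 : 0 ≤ L := Nat.cast_nonneg _
  have e1 : Real.sqrt T * T ^ e = T ^ (1 / 2 + e) := by
    rw [Real.sqrt_eq_rpow, ← Real.rpow_add hT0]
  rw [e1] at hL
  have h1 : T * L ≤ 2 * T ^ (3 / 2 + e) := by
    calc T * L ≤ T * (2 * T ^ (1 / 2 + e)) := by gcongr
      _ = 2 * (T ^ (1 : ℝ) * T ^ (1 / 2 + e)) := by rw [Real.rpow_one]; ring
      _ = _ := by rw [← Real.rpow_add hT0]; ring_nf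
  have h2 : (T * L) ^ e ≤ 2 * T ^ (2 * e) := by
    calc (T * L) ^ e ≤ (2 * T ^ (3 / 2 + e)) ^ e :=
          Real.rpow_le_rpow (by positivity) h1 he.le
      _ = 2 ^ e * T ^ ((3 / 2 + e) * e) := by
          rw [Real.mul_rpow (by norm_num) (by positivity), ← Real.rpow_mul hT0.le]
      _ ≤ 2 ^ (1 : ℝ) * T ^ (2 * e) := by
          gcongr
          · norm_num
          · linarith
          · linarith
      _ = _ := by rw [Real.rpow_one]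
  have h3 : T + L ^ 2 ≤ 5 * T ^ (1 + 2 * e) := by
    have h4 : L ^ 2 ≤ 4 * T ^ (1 + 2 * e) := by
      calc L ^ 2 ≤ (2 * T ^ (1 / 2 + e)) ^ 2 := pow_le_pow_left₀ hL0 hL 2
        _ = 4 * (T ^ (1 / 2 + e)) ^ (2 : ℝ) := by
            rw [mul_pow, ← Real.rpow_natCast (T ^ (1 / 2 + e)) 2]; norm_num
        _ = _ := by rw [← Real.rpow_mul hT0.le]; ring_nf
    have h5 : T ≤ T ^ (1 + 2 * e) := by
      calc T = T ^ (1 : ℝ) := (Real.rpow_one T).symm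
        _ ≤ _ := Real.rpow_le_rpow_of_exponent_le hT (by linarith)
    linarith
  calc (T * L) ^ e * (T + L ^ 2) ≤ (2 * T ^ (2 * e)) * (5 * T ^ (1 + 2 * e)) := by gcongr
    _ = 10 * (T ^ (2 * e) * T ^ (1 + 2 * e)) := by ring
    _ = _ := by rw [← Real.rpow_add hT0]; ring_nf

/-- numerical bound 2 -/
theorem num2 {e T : ℝ} (he : 0 < e) (he1 : e ≤ 1 / 16) (hT : 1 ≤ T) :
    T ^ (4 * e) * ((2 * T * (⌈Real.sqrt T⌉₊ : ℝ)) ^ e * (2 * T + (⌈Real.sqrt T⌉₊ : ℝ) ^ 2)) ≤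
      24 * T ^ (1 + 6 * e) := by
  have hT0 : 0 < T := by linarith
  have hs1 : 1 ≤ Real.sqrt T := Real.one_le_sqrt.mpr hT
  have hM := ceil_le_two hs1
  set M : ℝ := (⌈Real.sqrt T⌉₊ : ℝ) with hMdef
  have hM0 : 0 ≤ M := Nat.cast_nonneg _
  have hsT : Real.sqrt T ≤ T := by
    rw [Real.sqrt_le_left (by linarith)]; nlinarith
  have h2 : (2 * T * M) ^ e ≤ 4 * T ^ (2 * e) := by
    calc (2 * T * M) ^ e ≤ (4 * T ^ 2) ^ e := by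
          apply Real.rpow_le_rpow (by positivity) _ he.le
          nlinarith
      _ = 4 ^ e * T ^ (2 * e) := by
          rw [Real.mul_rpow (by norm_num) (by positivity), ← Real.rpow_natCast T 2,
            ← Real.rpow_mul hT0.le]
          norm_num
      _ ≤ 4 ^ (1 : ℝ) * T ^ (2 * e) := by
          gcongr
          · norm_num
          · linarith
      _ = _ := by rw [Real.rpow_one]
  have h3 : 2 * T + M ^ 2 ≤ 6 * T := by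
    have h4 : M ^ 2 ≤ 4 * T := by
      calc M ^ 2 ≤ (2 * Real.sqrt T) ^ 2 := pow_le_pow_left₀ hM0 hM 2
        _ = 4 * T := by rw [mul_pow, Real.sq_sqrt hT0.le]; norm_num
    linarith
  calc T ^ (4 * e) * ((2 * T * M) ^ e * (2 * T + M ^ 2))
      ≤ T ^ (4 * e) * ((4 * T ^ (2 * e)) * (6 * T)) := by gcongr
    _ = 24 * (T ^ (4 * e) * T ^ (2 * e) * T ^ (1 : ℝ)) := by rw [Real.rpow_one]; ring
    _ = _ := by rw [← Real.rpow_add hT0, ← Real.rpow_add hT0]; ring_nf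

/-- numerical bound 3 -/
theorem num3 {e T : ℝ} (he : 0 < e) (he1 : e ≤ 1 / 16) (hT : 1 ≤ T) :
    T ^ (3 / 2 : ℝ) * ((2 * T * (⌈T ^ 8⌉₊ : ℝ)) ^ e *
      (2 * T / (⌈Real.sqrt T⌉₊ : ℝ) ^ 3 + 1 / (⌈Real.sqrt T⌉₊ : ℝ))) ≤
      12 * T ^ (1 + 9 * e) := by
  have hT0 : 0 < T := by linarith
  have hs1 : 1 ≤ Real.sqrt T := Real.one_le_sqrt.mpr hT
  have hs0 : 0 < Real.sqrt T := by linarith
  have hM : Real.sqrt T ≤ (⌈Real.sqrt T⌉₊ : ℝ) := Nat.le_ceil _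
  set M : ℝ := (⌈Real.sqrt T⌉₊ : ℝ) with hMdef
  have hM0 : 0 < M := by linarith
  have hL := ceil_le_two (one_le_pow₀ hT (n := 8))
  set L : ℝ := (⌈T ^ 8⌉₊ : ℝ) with hLdef
  have hL0 : 0 ≤ L := Nat.cast_nonneg _
  have h2 : (2 * T * L) ^ e ≤ 4 * T ^ (9 * e) := by
    calc (2 * T * L) ^ e ≤ (4 * T ^ 9) ^ e := by
          apply Real.rpow_le_rpow (by positivity) _ he.le
          calc 2 * T * L ≤ 2 * T * (2 * T ^ 8) := by gcongr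
            _ = 4 * T ^ 9 := by ring
      _ = 4 ^ e * T ^ (9 * e) := by
          rw [Real.mul_rpow (by norm_num) (by positivity), ← Real.rpow_natCast T 9,
            ← Real.rpow_mul hT0.le]
          norm_num
      _ ≤ 4 ^ (1 : ℝ) * T ^ (9 * e) := by
          gcongr
          · norm_num
          · linarith
      _ = _ := by rw [Real.rpow_one]
  have h3 : 2 * T / M ^ 3 + 1 / M ≤ 3 * T ^ (-(1 / 2) : ℝ) := by
    have a1 : T ^ (-(1 / 2) : ℝ) = 1 / Real.sqrt T := by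
      rw [Real.rpow_neg hT0.le, Real.sqrt_eq_rpow, one_div]
      norm_num
    have a2 : 1 / M ≤ 1 / Real.sqrt T := one_div_le_one_div_of_le hs0 hM
    have a3 : 2 * T / M ^ 3 ≤ 2 * (1 / Real.sqrt T) := by
      calc 2 * T / M ^ 3 ≤ 2 * T / (Real.sqrt T) ^ 3 := by gcongr
        _ = 2 * (1 / Real.sqrt T) := by
            have : (Real.sqrt T) ^ 3 = T * Real.sqrt T := by
              rw [show (3 : ℕ) = 2 + 1 from rfl, pow_succ, Real.sq_sqrt hT0.le]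
            rw [this]
            field_simp
    rw [a1]
    linarith
  calc T ^ (3 / 2 : ℝ) * ((2 * T * L) ^ e * (2 * T / M ^ 3 + 1 / M))
      ≤ T ^ (3 / 2 : ℝ) * ((4 * T ^ (9 * e)) * (3 * T ^ (-(1 / 2) : ℝ))) := by gcongr
    _ = 12 * (T ^ (3 / 2 : ℝ) * T ^ (9 * e) * T ^ (-(1 / 2) : ℝ)) := by ring
    _ = _ := by rw [← Real.rpow_add hT0, ← Real.rpow_add hT0]; ring_nf

/-- coefficients of the short dual polynomial -/
noncomputable def coA (e : ℝ) (n : ℕ) : ℂ := (((n : ℝ) ^ (-(1 / 2 + e) : ℝ) : ℝ) : ℂ)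

/-- coefficients of the long dual polynomial -/
noncomputable def coB (n : ℕ) : ℂ := (((n : ℝ) ^ (-(5 / 4) : ℝ) : ℝ) : ℂ)

noncomputable def P0 (e T u : ℝ) : ℂ :=
  ∑ n ∈ Icc 1 ⌈Real.sqrt T * T ^ e⌉₊, aS T n * (n : ℂ) ^ ((u : ℂ) * Complex.I)

noncomputable def P1 (e T u : ℝ) : ℂ :=
  ∑ n ∈ Icc 1 ⌈Real.sqrt T⌉₊, coA e n * (n : ℂ) ^ ((u : ℂ) * Complex.I)

noncomputable def P2 (T u : ℝ) : ℂ :=
  ∑ n ∈ Ioc ⌈Real.sqrt T⌉₊ ⌈T ^ 8⌉₊, coB n * (n : ℂ) ^ ((u : ℂ) * Complex.I)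

noncomputable def F1 (Cz e T u : ℝ) : ℝ :=
  Cz * Real.sqrt T ^ (-e) * ((1 + |u|) ^ e * ‖P1 e T u‖)

noncomputable def F2 (Cz Ct T u : ℝ) : ℝ :=
  Cz * Real.sqrt T ^ (-(3 / 4) : ℝ) * ((1 + |u|) ^ (3 / 4 : ℝ) * (‖P2 T u‖ + Ct / T))

theorem P0_cont (e T : ℝ) : Continuous (P0 e T) :=
  cont_poly _ _ fun _ hn => (Finset.mem_Icc.mp hn).1

theorem P1_cont (e T : ℝ) : Continuous (P1 e T) :=
  cont_poly _ _ fun _ hn => (Finset.mem_Icc.mp hn).1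

theorem P2_cont (T : ℝ) : Continuous (P2 T) :=
  cont_poly _ _ fun n hn => by have := (Finset.mem_Ioc.mp hn).1; omega

theorem P0_bdd (e T : ℝ) : ∃ B : ℝ, 0 ≤ B ∧ ∀ u, ‖P0 e T u‖ ≤ B :=
  ⟨_, Finset.sum_nonneg fun _ _ => norm_nonneg _,
    bdd_poly _ _ fun _ hn => (Finset.mem_Icc.mp hn).1⟩

theorem P1_bdd (e T : ℝ) : ∃ B : ℝ, 0 ≤ B ∧ ∀ u, ‖P1 e T u‖ ≤ B :=
  ⟨_, Finset.sum_nonneg fun _ _ => norm_nonneg _,
    bdd_poly _ _ fun _ hn => (Finset.mem_Icc.mp hn).1⟩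

theorem P2_bdd (T : ℝ) : ∃ B : ℝ, 0 ≤ B ∧ ∀ u, ‖P2 T u‖ ≤ B :=
  ⟨_, Finset.sum_nonneg fun _ _ => norm_nonneg _,
    bdd_poly _ _ fun n hn => by have := (Finset.mem_Ioc.mp hn).1; omega⟩

theorem rpow_abs_cont {s : ℝ} : Continuous (fun u : ℝ => (1 + |u|) ^ s) :=
  Continuous.rpow_const (by fun_prop) fun u => Or.inl (by positivity)

theorem rpow_abs_le {s : ℝ} (hs : s ≤ 1) (u : ℝ) : (1 + |u|) ^ s ≤ 1 + |u| := by
  calc (1 + |u|) ^ s ≤ (1 + |u|) ^ (1 : ℝ) :=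
        Real.rpow_le_rpow_of_exponent_le (by linarith [abs_nonneg u]) hs
    _ = _ := Real.rpow_one _

theorem F1_cont (Cz e T : ℝ) : Continuous (F1 Cz e T) :=
  continuous_const.mul (rpow_abs_cont.mul (P1_cont e T).norm)

theorem F2_cont (Cz Ct T : ℝ) : Continuous (F2 Cz Ct T) :=
  continuous_const.mul (rpow_abs_cont.mul ((P2_cont T).norm.add continuous_const))

theorem F1_nonneg {Cz : ℝ} (hC : 0 ≤ Cz) (e T u : ℝ) : 0 ≤ F1 Cz e T u := by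
  unfold F1; positivity

theorem F2_nonneg {Cz Ct T : ℝ} (hC : 0 ≤ Cz) (hCt : 0 ≤ Ct) (hT : 0 ≤ T) (u : ℝ) :
    0 ≤ F2 Cz Ct T u := by
  unfold F2; positivity

theorem F1_le {Cz e : ℝ} (hC : 0 ≤ Cz) (he : e ≤ 1) (T : ℝ) :
    ∃ K : ℝ, 0 ≤ K ∧ ∀ u, F1 Cz e T u ≤ K * (1 + |u|) := by
  obtain ⟨B, hB0, hB⟩ := P1_bdd e T
  refine ⟨Cz * Real.sqrt T ^ (-e) * B, by positivity, fun u => ?_⟩
  unfold F1
  have h := mul_le_mul (rpow_abs_le he u) (hB u) (norm_nonneg _) (by positivity)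
  calc Cz * Real.sqrt T ^ (-e) * ((1 + |u|) ^ e * ‖P1 e T u‖)
      ≤ Cz * Real.sqrt T ^ (-e) * ((1 + |u|) * B) := mul_le_mul_of_nonneg_left h (by positivity)
    _ = _ := by ring

theorem F2_le {Cz Ct T : ℝ} (hC : 0 ≤ Cz) (hCt : 0 ≤ Ct) (hT : 0 ≤ T) :
    ∃ K : ℝ, 0 ≤ K ∧ ∀ u, F2 Cz Ct T u ≤ K * (1 + |u|) := by
  obtain ⟨B, hB0, hB⟩ := P2_bdd T
  refine ⟨Cz * Real.sqrt T ^ (-(3 / 4) : ℝ) * (B + Ct / T), by positivity, fun u => ?_⟩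
  unfold F2
  have h : (1 + |u|) ^ (3 / 4 : ℝ) * (‖P2 T u‖ + Ct / T) ≤ (1 + |u|) * (B + Ct / T) :=
    mul_le_mul (rpow_abs_le (by norm_num) u) (by linarith [hB u]) (by positivity)
      (by positivity)
  calc Cz * Real.sqrt T ^ (-(3 / 4) : ℝ) * ((1 + |u|) ^ (3 / 4 : ℝ) * (‖P2 T u‖ + Ct / T))
      ≤ Cz * Real.sqrt T ^ (-(3 / 4) : ℝ) * ((1 + |u|) * (B + Ct / T)) :=
        mul_le_mul_of_nonneg_left h (by positivity)
    _ = _ := by ring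

theorem P1_eq (e T u : ℝ) :
    ∑ m ∈ Icc 1 ⌈Real.sqrt T⌉₊, (m : ℂ) ^ ((-(1 / 2 + e : ℝ) : ℂ) + (u : ℂ) * Complex.I) =
      P1 e T u := by
  unfold P1 coA
  refine Finset.sum_congr rfl fun m hm => ?_
  have hm1 := (Finset.mem_Icc.mp hm).1
  have hm0 : (m : ℂ) ≠ 0 := by
    have : m ≠ 0 := by omega
    exact_mod_cast this
  rw [Complex.cpow_add _ _ hm0, Complex.ofReal_cpow (Nat.cast_nonneg m)]
  congr 2
  push_cast
  ring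

theorem pointwise (hA : FMafe) {e : ℝ} (he : 0 < e) (he1 : e ≤ 1 / 16) :
    ∃ Cs Cz Ct : ℝ, 0 < Cs ∧ 0 < Cz ∧ 0 < Ct ∧ ∀ T t : ℝ, 1 ≤ T →
      ‖riemannZeta (1 / 2 + (t : ℂ) * Complex.I)‖ ≤
        (‖P0 e T (-t)‖ + Cs + Cz * Real.sqrt (Real.sqrt T) * Real.exp (-t ^ 2)) +
        ∫ v : ℝ, (F1 Cz e T (t + v) + F2 Cz Ct T (t + v)) * Real.exp (-(1 / 2 * v ^ 2)) := by
  obtain ⟨Cs, hCs, hs⟩ := S1_bound he
  obtain ⟨Cz, hCz, hz⟩ := hA e he (by linarith)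
  obtain ⟨Ct, hCt, ht⟩ := tail54
  refine ⟨Cs, Cz, Ct, hCs, hCz, hCt, fun T t hT => ?_⟩
  have hT0 : 0 < T := by linarith
  have hs1 : 1 ≤ Real.sqrt T := Real.one_le_sqrt.mpr hT
  have hM1 : 1 ≤ ⌈Real.sqrt T⌉₊ := by
    rw [Nat.one_le_ceil_iff]; linarith
  have h := hz (Real.sqrt T) ⌈Real.sqrt T⌉₊ t hs1 hM1
  have h0 := hs T t ⌈Real.sqrt T * T ^ e⌉₊ hT (Nat.le_ceil _)
  have h0' : ‖S1 (Real.sqrt T) t‖ ≤ ‖P0 e T (-t)‖ + Cs := h0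
  obtain ⟨K1, hK1, hF1⟩ := F1_le (Cz := Cz) (e := e) hCz.le (by linarith) T
  obtain ⟨K2, hK2, hF2⟩ := F2_le (Cz := Cz) (Ct := Ct) (T := T) hCz.le hCt.le hT0.le
  have i1 : Integrable (fun v : ℝ => F1 Cz e T (t + v) * Real.exp (-(1 / 2 * v ^ 2))) := by
    have := shift_integrable (F1_cont Cz e T) hK1 (F1_nonneg hCz.le e T) hF1 t 1
      (b := 1 / 2) (by norm_num)
    simpa using this
  have i2 : Integrable (fun v : ℝ => F2 Cz Ct T (t + v) * Real.exp (-(1 / 2 * v ^ 2))) := by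
    have := shift_integrable (F2_cont Cz Ct T) hK2 (F2_nonneg hCz.le hCt.le hT0.le) hF2 t 1
      (b := 1 / 2) (by norm_num)
    simpa using this
  have e0 : ∀ v : ℝ, Real.exp (-v ^ 2 / 2) = Real.exp (-(1 / 2 * v ^ 2)) := fun v => by
    congr 1; ring
  have h1 : Cz * Real.sqrt T ^ (-e) * (∫ v : ℝ, (1 + |t + v|) ^ e *
      ‖∑ m ∈ Icc 1 ⌈Real.sqrt T⌉₊, (m : ℂ) ^ ((-(1 / 2 + e : ℝ) : ℂ) +
      ((t + v : ℝ) : ℂ) * Complex.I)‖ * Real.exp (-v ^ 2 / 2)) =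
      ∫ v : ℝ, F1 Cz e T (t + v) * Real.exp (-(1 / 2 * v ^ 2)) := by
    rw [← integral_const_mul]
    congr 1
    funext v
    rw [P1_eq, e0, F1]
    ring
  have h2 : Cz * Real.sqrt T ^ (-(3 / 4) : ℝ) * (∫ v : ℝ, (1 + |t + v|) ^ (3 / 4 : ℝ) *
      ‖∑' m : ℕ, ((m : ℂ) + ⌈Real.sqrt T⌉₊ + 1) ^ ((-(5 / 4) : ℂ) +
      ((t + v : ℝ) : ℂ) * Complex.I)‖ * Real.exp (-v ^ 2 / 2)) ≤
      ∫ v : ℝ, F2 Cz Ct T (t + v) * Real.exp (-(1 / 2 * v ^ 2)) := by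
    rw [← integral_const_mul]
    refine integral_mono_of_nonneg (Eventually.of_forall fun v => by
      simp only [Pi.zero_apply]; positivity) i2
      (Eventually.of_forall fun v => ?_)
    simp only
    have hsT : Real.sqrt T ≤ T ^ 8 := by
      have a1 : Real.sqrt T ≤ T := by
        rw [Real.sqrt_le_left (by linarith)]; nlinarith
      exact a1.trans (le_self_pow₀ hT (by norm_num))
    have h3 := ht T (t + v) ⌈Real.sqrt T⌉₊ ⌈T ^ 8⌉₊ hT (Nat.ceil_le_ceil hsT) (Nat.le_ceil _)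
    have h4 : ‖∑' m : ℕ, ((m : ℂ) + ⌈Real.sqrt T⌉₊ + 1) ^ ((-(5 / 4) : ℂ) +
        ((t + v : ℝ) : ℂ) * Complex.I)‖ ≤ ‖P2 T (t + v)‖ + Ct / T := h3
    rw [e0, F2]
    calc _ = Cz * Real.sqrt T ^ (-(3 / 4) : ℝ) * ((1 + |t + v|) ^ (3 / 4 : ℝ) *
        ‖∑' m : ℕ, ((m : ℂ) + ⌈Real.sqrt T⌉₊ + 1) ^ ((-(5 / 4) : ℂ) +
        ((t + v : ℝ) : ℂ) * Complex.I)‖) * Real.exp (-(1 / 2 * v ^ 2)) := by ring
      _ ≤ _ := by gcongr
  have h5 : ∫ v : ℝ, (F1 Cz e T (t + v) + F2 Cz Ct T (t + v)) * Real.exp (-(1 / 2 * v ^ 2)) =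
      (∫ v : ℝ, F1 Cz e T (t + v) * Real.exp (-(1 / 2 * v ^ 2))) +
      ∫ v : ℝ, F2 Cz Ct T (t + v) * Real.exp (-(1 / 2 * v ^ 2)) := by
    rw [← integral_add i1 i2]
    congr 1
    funext v
    ring
  rw [h5]
  linarith

/-- weighted integrals of powers of the polynomials, in `ENNReal` -/
theorem lint_poly {P : ℝ → ℂ} (hc : Continuous P) {B : ℝ} (hB : ∀ u, ‖P u‖ ≤ B) {T c : ℝ}
    (hT : 0 < T) (hI : ∫ t : ℝ, Real.exp (-(t / T) ^ 2) * ‖P t‖ ^ 4 ≤ c) :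
    ∫⁻ t : ℝ, ENNReal.ofReal (Real.exp (-(t / T) ^ 2) * ‖P t‖ ^ 4) ≤ ENNReal.ofReal c := by
  have hint : Integrable (fun t => Real.exp (-(t / T) ^ 2) * ‖P t‖ ^ 4) :=
    bdd_integrable (g := fun t => ‖P t‖ ^ 4) (hc.norm.pow 4) (fun t => by positivity)
      (fun t => pow_le_pow_left₀ (norm_nonneg _) (hB t) 4) hT
  rw [← ofReal_integral_eq_lintegral_ofReal hint
    (Eventually.of_forall fun t => by simp only [Pi.zero_apply]; positivity)]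
  exact ENNReal.ofReal_le_ofReal hI

theorem lint_w {T : ℝ} (hT : 0 < T) :
    ∫⁻ t : ℝ, ENNReal.ofReal (Real.exp (-(t / T) ^ 2)) = ENNReal.ofReal (Real.sqrt Real.pi * T) := by
  rw [← int_wT hT]
  have hint : Integrable (fun t : ℝ => Real.exp (-(t / T) ^ 2)) := by
    have := bdd_integrable (g := fun _ => 1) continuous_const (fun t => by norm_num)
      (B := 1) (fun t => le_refl _) hT
    simpa using this
  rw [← ofReal_integral_eq_lintegral_ofReal hint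
    (Eventually.of_forall fun t => by simp only [Pi.zero_apply]; positivity)]

theorem lint_const {T c : ℝ} (hT : 0 < T) (hc : 0 ≤ c) :
    ∫⁻ t : ℝ, ENNReal.ofReal (c * Real.exp (-(t / T) ^ 2)) =
      ENNReal.ofReal (c * (Real.sqrt Real.pi * T)) := by
  simp_rw [ENNReal.ofReal_mul hc]
  rw [lintegral_const_mul _ (by fun_prop), lint_w hT]

theorem one_le_pow_T {e T : ℝ} (he : 0 < e) (hT : 1 ≤ T) : T ≤ T ^ (1 + 9 * e) := by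
  calc T = T ^ (1 : ℝ) := (Real.rpow_one T).symm
    _ ≤ _ := Real.rpow_le_rpow_of_exponent_le hT (by linarith)

theorem F1_pow {Cz e T : ℝ} (he : 0 < e) (he1 : e ≤ 1 / 16) (hT : 1 ≤ T) (u : ℝ) :
    Real.exp (-(u ^ 2 / (2 * T ^ 2))) * F1 Cz e T u ^ 4 ≤
      Cz ^ 4 * Real.exp 9 * T ^ (4 * e) *
        (Real.exp (-(u / (2 * T)) ^ 2) * ‖P1 e T u‖ ^ 4) := by
  have hT0 : 0 < T := by linarith
  have hs1 : 1 ≤ Real.sqrt T := Real.one_le_sqrt.mpr hT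
  have hg := growth (s := 4 * e) (by positivity) (by linarith) hT u
  have h1 : Real.sqrt T ^ (-e) ≤ 1 := Real.rpow_le_one_of_one_le_of_nonpos hs1 (by linarith)
  have h2 : (Real.sqrt T ^ (-e)) ^ 4 ≤ 1 := pow_le_one₀ (by positivity) h1
  have h3 : ((1 + |u|) ^ e) ^ 4 = (1 + |u|) ^ (4 * e) := by
    rw [← Real.rpow_natCast, ← Real.rpow_mul (by positivity)]
    congr 1
    push_cast
    ring
  unfold F1
  calc Real.exp (-(u ^ 2 / (2 * T ^ 2))) *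
        (Cz * Real.sqrt T ^ (-e) * ((1 + |u|) ^ e * ‖P1 e T u‖)) ^ 4
      = Cz ^ 4 * (Real.sqrt T ^ (-e)) ^ 4 *
        ((Real.exp (-(u ^ 2 / (2 * T ^ 2))) * ((1 + |u|) ^ e) ^ 4) * ‖P1 e T u‖ ^ 4) := by ring
    _ ≤ Cz ^ 4 * 1 *
        ((Real.exp 9 * T ^ (4 * e) * Real.exp (-(u / (2 * T)) ^ 2)) * ‖P1 e T u‖ ^ 4) := by
        rw [h3]
        gcongr
    _ = _ := by ring

theorem F2_pow {Cz Ct T : ℝ} (hT : 1 ≤ T) (u : ℝ) :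
    Real.exp (-(u ^ 2 / (2 * T ^ 2))) * F2 Cz Ct T u ^ 4 ≤
      8 * Cz ^ 4 * Real.exp 9 * T ^ (3 / 2 : ℝ) *
        (Real.exp (-(u / (2 * T)) ^ 2) * ‖P2 T u‖ ^ 4) +
      8 * Cz ^ 4 * Real.exp 9 * T ^ (3 / 2 : ℝ) * (Ct / T) ^ 4 * Real.exp (-(u / (2 * T)) ^ 2) := by
  have hT0 : 0 < T := by linarith
  have hs1 : 1 ≤ Real.sqrt T := Real.one_le_sqrt.mpr hT
  have hg := growth (s := 3) (by norm_num) (le_refl _) hT u
  have h2 : (Real.sqrt T ^ (-(3 / 4) : ℝ)) ^ 4 = T ^ (-(3 / 2) : ℝ) := by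
    rw [Real.sqrt_eq_rpow, ← Real.rpow_mul hT0.le, ← Real.rpow_natCast, ← Real.rpow_mul hT0.le]
    norm_num
  have h3 : ((1 + |u|) ^ (3 / 4 : ℝ)) ^ 4 = (1 + |u|) ^ (3 : ℝ) := by
    rw [← Real.rpow_natCast, ← Real.rpow_mul (by positivity)]
    norm_num
  have h4 : T ^ (-(3 / 2) : ℝ) * T ^ (3 : ℝ) = T ^ (3 / 2 : ℝ) := by
    rw [← Real.rpow_add hT0]; norm_num
  have h5 := pow4_add2 ‖P2 T u‖ (Ct / T)
  unfold F2
  calc Real.exp (-(u ^ 2 / (2 * T ^ 2))) *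
        (Cz * Real.sqrt T ^ (-(3 / 4) : ℝ) * ((1 + |u|) ^ (3 / 4 : ℝ) * (‖P2 T u‖ + Ct / T))) ^ 4
      = Cz ^ 4 * (Real.sqrt T ^ (-(3 / 4) : ℝ)) ^ 4 *
        ((Real.exp (-(u ^ 2 / (2 * T ^ 2))) * ((1 + |u|) ^ (3 / 4 : ℝ)) ^ 4) *
          (‖P2 T u‖ + Ct / T) ^ 4) := by ring
    _ ≤ Cz ^ 4 * T ^ (-(3 / 2) : ℝ) *
        ((Real.exp 9 * T ^ (3 : ℝ) * Real.exp (-(u / (2 * T)) ^ 2)) *
          (8 * (‖P2 T u‖ ^ 4 + (Ct / T) ^ 4))) := by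
        rw [h3, h2]
        gcongr
    _ = 8 * Cz ^ 4 * Real.exp 9 * (T ^ (-(3 / 2) : ℝ) * T ^ (3 : ℝ)) *
        (Real.exp (-(u / (2 * T)) ^ 2) * ‖P2 T u‖ ^ 4) +
        8 * Cz ^ 4 * Real.exp 9 * (T ^ (-(3 / 2) : ℝ) * T ^ (3 : ℝ)) * (Ct / T) ^ 4 *
          Real.exp (-(u / (2 * T)) ^ 2) := by ring
    _ = _ := by rw [h4]

theorem lint_smul {c : ℝ} (hc : 0 ≤ c) (f : ℝ → ℝ) :
    ∫⁻ t, ENNReal.ofReal (c * f t) = ENNReal.ofReal c * ∫⁻ t, ENNReal.ofReal (f t) := by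
  simp_rw [ENNReal.ofReal_mul hc]
  exact lintegral_const_mul' _ _ ENNReal.ofReal_ne_top

theorem lint_smul_le {c b : ℝ} (hc : 0 ≤ c) {f : ℝ → ℝ}
    (h : ∫⁻ t, ENNReal.ofReal (f t) ≤ ENNReal.ofReal b) :
    ∫⁻ t, ENNReal.ofReal (c * f t) ≤ ENNReal.ofReal (c * b) := by
  rw [lint_smul hc, ENNReal.ofReal_mul hc]
  gcongr

theorem norm_coA (e : ℝ) (n : ℕ) : ‖coA e n‖ = (n : ℝ) ^ (-(1 / 2 + e) : ℝ) := by
  unfold coA
  rw [Complex.norm_real, Real.norm_eq_abs, abs_of_nonneg (by positivity)]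

theorem norm_coB (n : ℕ) : ‖coB n‖ = (n : ℝ) ^ (-(5 / 4) : ℝ) := by
  unfold coB
  rw [Complex.norm_real, Real.norm_eq_abs, abs_of_nonneg (by positivity)]

theorem lint_P0 {Ca e : ℝ} (hCa : 0 < Ca) (he : 0 < e) (he1 : e ≤ 1 / 16)
    (ha : ∀ (L : ℕ) (a : ℕ → ℂ) (T : ℝ), 1 ≤ T → 1 ≤ L →
      (∀ n : ℕ, 1 ≤ n → ‖a n‖ ≤ (n : ℝ) ^ (-(1 / 2) : ℝ)) →
      ∫ t : ℝ, Real.exp (-(t / T) ^ 2) * ‖∑ n ∈ Icc 1 L, a n * (n : ℂ) ^ ((t : ℂ) * Complex.I)‖ ^ 4 ≤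
      Ca * (T * L) ^ e * (T + (L : ℝ) ^ 2)) {T : ℝ} (hT : 1 ≤ T) :
    ∫⁻ t : ℝ, ENNReal.ofReal (Real.exp (-(t / T) ^ 2) * ‖P0 e T (-t)‖ ^ 4) ≤
      ENNReal.ofReal (Ca * (10 * T ^ (1 + 9 * e))) := by
  have hT0 : 0 < T := by linarith
  obtain ⟨B, hB0, hB⟩ := P0_bdd e T
  refine lint_poly (P := fun t => P0 e T (-t)) ((P0_cont e T).comp continuous_neg)
    (fun u => hB (-u)) hT0 ?_
  have h1 : ∫ t : ℝ, Real.exp (-(t / T) ^ 2) * ‖P0 e T (-t)‖ ^ 4 =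
      ∫ t : ℝ, Real.exp (-(t / T) ^ 2) * ‖P0 e T t‖ ^ 4 := by
    rw [← integral_neg_eq_self (fun t : ℝ => Real.exp (-(t / T) ^ 2) * ‖P0 e T t‖ ^ 4)]
    congr 1
    funext t
    rw [neg_div, neg_sq]
  rw [h1]
  have hTe : 1 ≤ T ^ e := Real.one_le_rpow hT he.le
  have hs1 : 1 ≤ Real.sqrt T := Real.one_le_sqrt.mpr hT
  have hL : 1 ≤ ⌈Real.sqrt T * T ^ e⌉₊ := by
    rw [Nat.one_le_ceil_iff]; positivity
  refine (ha _ (aS T) T hT hL (fun n _ => norm_aS_le T n)).trans ?_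
  have h2 := num1 he he1 hT
  have h3 : T ^ (1 + 4 * e) ≤ T ^ (1 + 9 * e) :=
    Real.rpow_le_rpow_of_exponent_le hT (by linarith)
  calc _ = Ca * ((T * (⌈Real.sqrt T * T ^ e⌉₊ : ℝ)) ^ e *
        (T + (⌈Real.sqrt T * T ^ e⌉₊ : ℝ) ^ 2)) := by ring
    _ ≤ Ca * (10 * T ^ (1 + 9 * e)) := by
        apply mul_le_mul_of_nonneg_left _ hCa.le
        linarith

theorem lint_P1 {Ca e : ℝ} (he : 0 < e)
    (ha : ∀ (L : ℕ) (a : ℕ → ℂ) (T : ℝ), 1 ≤ T → 1 ≤ L →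
      (∀ n : ℕ, 1 ≤ n → ‖a n‖ ≤ (n : ℝ) ^ (-(1 / 2) : ℝ)) →
      ∫ t : ℝ, Real.exp (-(t / T) ^ 2) * ‖∑ n ∈ Icc 1 L, a n * (n : ℂ) ^ ((t : ℂ) * Complex.I)‖ ^ 4 ≤
      Ca * (T * L) ^ e * (T + (L : ℝ) ^ 2)) {T : ℝ} (hT : 1 ≤ T) :
    ∫⁻ t : ℝ, ENNReal.ofReal (Real.exp (-(t / (2 * T)) ^ 2) * ‖P1 e T t‖ ^ 4) ≤
      ENNReal.ofReal (Ca * ((2 * T * (⌈Real.sqrt T⌉₊ : ℝ)) ^ e *
        (2 * T + (⌈Real.sqrt T⌉₊ : ℝ) ^ 2))) := by
  have hT0 : 0 < T := by linarith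
  obtain ⟨B, hB0, hB⟩ := P1_bdd e T
  refine lint_poly (P1_cont e T) hB (by positivity) ?_
  have hs1 : 1 ≤ Real.sqrt T := Real.one_le_sqrt.mpr hT
  have hL : 1 ≤ ⌈Real.sqrt T⌉₊ := by
    rw [Nat.one_le_ceil_iff]; linarith
  refine (ha _ (coA e) (2 * T) (by linarith) hL (fun n hn => ?_)).trans (le_of_eq (by ring))
  rw [norm_coA]
  exact Real.rpow_le_rpow_of_exponent_le (by exact_mod_cast hn) (by linarith)

theorem lint_P2 {Cb e : ℝ} 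
    (hb : ∀ (M L : ℕ) (a : ℕ → ℂ) (T : ℝ), 1 ≤ T → 1 ≤ M → M ≤ L →
      (∀ n : ℕ, 1 ≤ n → ‖a n‖ ≤ (n : ℝ) ^ (-(5 / 4) : ℝ)) →
      ∫ t : ℝ, Real.exp (-(t / T) ^ 2) * ‖∑ n ∈ Ioc M L, a n * (n : ℂ) ^ ((t : ℂ) * Complex.I)‖ ^ 4 ≤
      Cb * (T * L) ^ e * (T / (M : ℝ) ^ 3 + 1 / (M : ℝ))) {T : ℝ} (hT : 1 ≤ T) :
    ∫⁻ t : ℝ, ENNReal.ofReal (Real.exp (-(t / (2 * T)) ^ 2) * ‖P2 T t‖ ^ 4) ≤
      ENNReal.ofReal (Cb * ((2 * T * (⌈T ^ 8⌉₊ : ℝ)) ^ e *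
        (2 * T / (⌈Real.sqrt T⌉₊ : ℝ) ^ 3 + 1 / (⌈Real.sqrt T⌉₊ : ℝ)))) := by
  have hT0 : 0 < T := by linarith
  obtain ⟨B, hB0, hB⟩ := P2_bdd T
  refine lint_poly (P2_cont T) hB (by positivity) ?_
  have hs1 : 1 ≤ Real.sqrt T := Real.one_le_sqrt.mpr hT
  have hL : 1 ≤ ⌈Real.sqrt T⌉₊ := by
    rw [Nat.one_le_ceil_iff]; linarith
  have hsT : Real.sqrt T ≤ T ^ 8 := by
    have a1 : Real.sqrt T ≤ T := by
      rw [Real.sqrt_le_left (by linarith)]; nlinarith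
    exact a1.trans (le_self_pow₀ hT (by norm_num))
  refine (hb _ _ coB (2 * T) (by linarith) hL (Nat.ceil_le_ceil hsT) (fun n _ => ?_)).trans
    (le_of_eq (by ring))
  rw [norm_coB]

theorem lint_add3 {f g h : ℝ → ℝ} (hf : Continuous f) (hg : Continuous g) {a b c : ℝ}
    (ha0 : 0 ≤ a) (hb0 : 0 ≤ b) (hc0 : 0 ≤ c)
    (ha : ∫⁻ t, ENNReal.ofReal (f t) ≤ ENNReal.ofReal a)
    (hb : ∫⁻ t, ENNReal.ofReal (g t) ≤ ENNReal.ofReal b)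
    (hc : ∫⁻ t, ENNReal.ofReal (h t) ≤ ENNReal.ofReal c) {F : ℝ → ℝ}
    (hF : ∀ t, F t ≤ f t + (g t + h t)) :
    ∫⁻ t, ENNReal.ofReal (F t) ≤ ENNReal.ofReal (a + (b + c)) := by
  calc ∫⁻ t, ENNReal.ofReal (F t)
      ≤ ∫⁻ t, (ENNReal.ofReal (f t) + (ENNReal.ofReal (g t) + ENNReal.ofReal (h t))) := by
        refine lintegral_mono fun t => ?_
        refine (ENNReal.ofReal_le_ofReal (hF t)).trans ?_
        refine ENNReal.ofReal_add_le.trans ?_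
        gcongr
        exact ENNReal.ofReal_add_le
    _ = (∫⁻ t, ENNReal.ofReal (f t)) + ((∫⁻ t, ENNReal.ofReal (g t)) +
        ∫⁻ t, ENNReal.ofReal (h t)) := by
        rw [lintegral_add_left (by fun_prop), lintegral_add_left (by fun_prop)]
    _ ≤ ENNReal.ofReal a + (ENNReal.ofReal b + ENNReal.ofReal c) := by gcongr
    _ = _ := by rw [ENNReal.ofReal_add ha0 (by positivity), ENNReal.ofReal_add hb0 hc0]

theorem lint_add2 {f h : ℝ → ℝ} (hf : Continuous f) {a c : ℝ}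
    (ha0 : 0 ≤ a) (hc0 : 0 ≤ c)
    (ha : ∫⁻ t, ENNReal.ofReal (f t) ≤ ENNReal.ofReal a)
    (hc : ∫⁻ t, ENNReal.ofReal (h t) ≤ ENNReal.ofReal c) :
    ∫⁻ t, ENNReal.ofReal (f t + h t) ≤ ENNReal.ofReal (a + c) := by
  calc ∫⁻ t, ENNReal.ofReal (f t + h t)
      ≤ ∫⁻ t, (ENNReal.ofReal (f t) + ENNReal.ofReal (h t)) := by
        refine lintegral_mono fun t => ?_
        exact ENNReal.ofReal_add_le
    _ = (∫⁻ t, ENNReal.ofReal (f t)) + ∫⁻ t, ENNReal.ofReal (h t) := by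
        rw [lintegral_add_left (by fun_prop)]
    _ ≤ ENNReal.ofReal a + ENNReal.ofReal c := by gcongr
    _ = _ := by rw [ENNReal.ofReal_add ha0 hc0]

theorem lint_avg {Ca Cb Cz Ct Cv e : ℝ} (hCa : 0 < Ca) (hCb : 0 < Cb) (hCz : 0 < Cz)
    (hCt : 0 < Ct) (hCv : 0 < Cv) (he : 0 < e) (he1 : e ≤ 1 / 16)
    (ha : ∀ (L : ℕ) (a : ℕ → ℂ) (T : ℝ), 1 ≤ T → 1 ≤ L →
      (∀ n : ℕ, 1 ≤ n → ‖a n‖ ≤ (n : ℝ) ^ (-(1 / 2) : ℝ)) →
      ∫ t : ℝ, Real.exp (-(t / T) ^ 2) * ‖∑ n ∈ Icc 1 L, a n * (n : ℂ) ^ ((t : ℂ) * Complex.I)‖ ^ 4 ≤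
      Ca * (T * L) ^ e * (T + (L : ℝ) ^ 2))
    (hb : ∀ (M L : ℕ) (a : ℕ → ℂ) (T : ℝ), 1 ≤ T → 1 ≤ M → M ≤ L →
      (∀ n : ℕ, 1 ≤ n → ‖a n‖ ≤ (n : ℝ) ^ (-(5 / 4) : ℝ)) →
      ∫ t : ℝ, Real.exp (-(t / T) ^ 2) * ‖∑ n ∈ Ioc M L, a n * (n : ℂ) ^ ((t : ℂ) * Complex.I)‖ ^ 4 ≤
      Cb * (T * L) ^ e * (T / (M : ℝ) ^ 3 + 1 / (M : ℝ)))
    (hv : ∀ (F : ℝ → ℝ) (K T : ℝ), Continuous F → 0 ≤ K → (∀ u, 0 ≤ F u) →
      (∀ u, F u ≤ K * (1 + |u|)) → 2 ≤ T →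
      ∫⁻ t, ENNReal.ofReal (Real.exp (-(t / T) ^ 2) *
        (∫ v, F (t + v) * Real.exp (-(1 / 2 * v ^ 2))) ^ 4) ≤
      ENNReal.ofReal Cv * ∫⁻ u, ENNReal.ofReal (Real.exp (-(u ^ 2 / (2 * T ^ 2))) * F u ^ 4))
    {T : ℝ} (hT2 : 2 ≤ T) :
    ∫⁻ t : ℝ, ENNReal.ofReal (Real.exp (-(t / T) ^ 2) *
      (∫ v : ℝ, (F1 Cz e T (t + v) + F2 Cz Ct T (t + v)) * Real.exp (-(1 / 2 * v ^ 2))) ^ 4) ≤
    ENNReal.ofReal (Cv * ((8 * Cz ^ 4 * Real.exp 9 * (24 * Ca) +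
      (64 * Cz ^ 4 * Real.exp 9 * (12 * Cb) +
      64 * Cz ^ 4 * Real.exp 9 * Ct ^ 4 * (2 * Real.sqrt Real.pi))) * T ^ (1 + 9 * e))) := by
  have hT : 1 ≤ T := by linarith
  have hT0 : 0 < T := by linarith
  obtain ⟨K1, hK1, hF1⟩ := F1_le (Cz := Cz) (e := e) hCz.le (by linarith) T
  obtain ⟨K2, hK2, hF2⟩ := F2_le (Cz := Cz) (Ct := Ct) (T := T) hCz.le hCt.le hT0.le
  refine (hv (fun u => F1 Cz e T u + F2 Cz Ct T u) (K1 + K2) T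
    ((F1_cont Cz e T).add (F2_cont Cz Ct T)) (by positivity)
    (fun u => add_nonneg (F1_nonneg hCz.le e T u) (F2_nonneg hCz.le hCt.le hT0.le u))
    (fun u => by linarith [hF1 u, hF2 u]) hT2).trans ?_
  rw [ENNReal.ofReal_mul hCv.le]
  gcongr
  have b1 := lint_smul_le (c := 8 * Cz ^ 4 * Real.exp 9 * T ^ (4 * e)) (by positivity)
    (lint_P1 he ha hT)
  have b2 := lint_smul_le (c := 64 * Cz ^ 4 * Real.exp 9 * T ^ (3 / 2 : ℝ)) (by positivity)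
    (lint_P2 hb hT)
  have b3 := lint_smul_le (c := 64 * Cz ^ 4 * Real.exp 9 * T ^ (3 / 2 : ℝ) * (Ct / T) ^ 4)
    (by positivity) (le_of_eq (lint_w (T := 2 * T) (by positivity)))
  refine (lint_add3 (by
      have := P1_cont e T
      fun_prop) (by
      have := P2_cont T
      fun_prop) (by positivity) (by positivity) (by positivity) b1 b2 b3
    (F := fun u => Real.exp (-(u ^ 2 / (2 * T ^ 2))) * (F1 Cz e T u + F2 Cz Ct T u) ^ 4)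
    (fun u => ?_)).trans (ENNReal.ofReal_le_ofReal ?_)
  · have h1 := F1_pow (Cz := Cz) he he1 hT u
    have h2 := F2_pow (Cz := Cz) (Ct := Ct) hT u
    have h3 := pow4_add2 (F1 Cz e T u) (F2 Cz Ct T u)
    have h4 : Real.exp (-(u ^ 2 / (2 * T ^ 2))) * (F1 Cz e T u + F2 Cz Ct T u) ^ 4 ≤
        Real.exp (-(u ^ 2 / (2 * T ^ 2))) * (8 * (F1 Cz e T u ^ 4 + F2 Cz Ct T u ^ 4)) :=
      mul_le_mul_of_nonneg_left h3 (Real.exp_pos _).le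
    linarith
  · have n2 := num2 he he1 hT
    have n3 := num3 he he1 hT
    have h6 : T ^ (1 + 6 * e) ≤ T ^ (1 + 9 * e) :=
      Real.rpow_le_rpow_of_exponent_le hT (by linarith)
    have h1 := one_le_pow_T he hT
    have h7 : T ^ (3 / 2 : ℝ) * (Ct / T) ^ 4 * T ≤ Ct ^ 4 * T ^ (1 + 9 * e) := by
      have h8 : T ^ (3 / 2 : ℝ) ≤ T ^ 4 := by
        rw [← Real.rpow_natCast T 4]
        exact Real.rpow_le_rpow_of_exponent_le hT (by norm_num)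
      calc T ^ (3 / 2 : ℝ) * (Ct / T) ^ 4 * T ≤ T ^ 4 * (Ct / T) ^ 4 * T := by gcongr
        _ = Ct ^ 4 * T := by field_simp
        _ ≤ _ := by gcongr
    have c1 : 8 * Cz ^ 4 * Real.exp 9 * T ^ (4 * e) * (Ca * ((2 * T * (⌈Real.sqrt T⌉₊ : ℝ)) ^ e *
        (2 * T + (⌈Real.sqrt T⌉₊ : ℝ) ^ 2))) ≤
        8 * Cz ^ 4 * Real.exp 9 * (24 * Ca) * T ^ (1 + 9 * e) := by
      calc _ = 8 * Cz ^ 4 * Real.exp 9 * Ca * (T ^ (4 * e) * ((2 * T * (⌈Real.sqrt T⌉₊ : ℝ)) ^ e *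
        (2 * T + (⌈Real.sqrt T⌉₊ : ℝ) ^ 2))) := by ring
        _ ≤ 8 * Cz ^ 4 * Real.exp 9 * Ca * (24 * T ^ (1 + 9 * e)) :=
          mul_le_mul_of_nonneg_left (by linarith) (by positivity)
        _ = _ := by ring
    have c2 : 64 * Cz ^ 4 * Real.exp 9 * T ^ (3 / 2 : ℝ) *
        (Cb * ((2 * T * (⌈T ^ 8⌉₊ : ℝ)) ^ e *
        (2 * T / (⌈Real.sqrt T⌉₊ : ℝ) ^ 3 + 1 / (⌈Real.sqrt T⌉₊ : ℝ)))) ≤
        64 * Cz ^ 4 * Real.exp 9 * (12 * Cb) * T ^ (1 + 9 * e) := by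
      calc _ = 64 * Cz ^ 4 * Real.exp 9 * Cb * (T ^ (3 / 2 : ℝ) * ((2 * T * (⌈T ^ 8⌉₊ : ℝ)) ^ e *
        (2 * T / (⌈Real.sqrt T⌉₊ : ℝ) ^ 3 + 1 / (⌈Real.sqrt T⌉₊ : ℝ)))) := by ring
        _ ≤ 64 * Cz ^ 4 * Real.exp 9 * Cb * (12 * T ^ (1 + 9 * e)) :=
          mul_le_mul_of_nonneg_left n3 (by positivity)
        _ = _ := by ring
    have c3 : 64 * Cz ^ 4 * Real.exp 9 * T ^ (3 / 2 : ℝ) * (Ct / T) ^ 4 *
        (Real.sqrt Real.pi * (2 * T)) ≤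
        64 * Cz ^ 4 * Real.exp 9 * Ct ^ 4 * (2 * Real.sqrt Real.pi) * T ^ (1 + 9 * e) := by
      calc _ = 64 * Cz ^ 4 * Real.exp 9 * (2 * Real.sqrt Real.pi) *
          (T ^ (3 / 2 : ℝ) * (Ct / T) ^ 4 * T) := by ring
        _ ≤ 64 * Cz ^ 4 * Real.exp 9 * (2 * Real.sqrt Real.pi) * (Ct ^ 4 * T ^ (1 + 9 * e)) :=
          mul_le_mul_of_nonneg_left h7 (by positivity)
        _ = _ := by ring
    linarith

/-- the fourth moment for `T ≥ 2`, in `ENNReal` -/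
theorem lint_zeta (ha : FMmv4a) (hb : FMmv4b) (hA : FMafe) {e : ℝ} (he : 0 < e)
    (he1 : e ≤ 1 / 16) : ∃ C : ℝ, 0 < C ∧ ∀ T : ℝ, 2 ≤ T →
      ∫⁻ t : ℝ, ENNReal.ofReal (Real.exp (-(t / T) ^ 2) *
        ‖riemannZeta (1 / 2 + (t : ℂ) * Complex.I)‖ ^ 4) ≤ ENNReal.ofReal (C * T ^ (1 + 9 * e)) := by
  obtain ⟨Cs, Cz, Ct, hCs, hCz, hCt, hp⟩ := pointwise hA he he1
  obtain ⟨Ca, hCa, ha'⟩ := ha e he
  obtain ⟨Cb, hCb, hb'⟩ := hb e he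
  obtain ⟨Cv, hCv, hv⟩ := avg4
  set D : ℝ := Cv * (8 * Cz ^ 4 * Real.exp 9 * (24 * Ca) +
      (64 * Cz ^ 4 * Real.exp 9 * (12 * Cb) +
      64 * Cz ^ 4 * Real.exp 9 * Ct ^ 4 * (2 * Real.sqrt Real.pi))) with hD
  have hD0 : 0 < D := by positivity
  refine ⟨512 * (10 * Ca) + (512 * Cs ^ 4 * Real.sqrt Real.pi +
    (512 * Cz ^ 4 * Real.sqrt Real.pi + 8 * D)), by positivity, fun T hT2 => ?_⟩
  have hT : 1 ≤ T := by linarith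
  have hT0 : 0 < T := by linarith
  have d0 := lint_smul_le (c := 512) (by norm_num) (lint_P0 hCa he he1 ha' hT)
  have d1 := lint_smul_le (c := 512 * Cs ^ 4) (by positivity) (le_of_eq (lint_w hT0))
  have d2 := lint_smul_le (c := 512 * Cz ^ 4 * T) (by positivity)
    (le_of_eq (lint_w (T := 1) one_pos))
  have d3 := lint_smul_le (c := 8) (by norm_num)
    (lint_avg hCa hCb hCz hCt hCv he he1 ha' hb' hv hT2)
  have hA4 : ∀ t : ℝ, Real.exp (-(t / T) ^ 2) *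
        ‖riemannZeta (1 / 2 + (t : ℂ) * Complex.I)‖ ^ 4 ≤
      512 * (Real.exp (-(t / T) ^ 2) * ‖P0 e T (-t)‖ ^ 4) +
      (512 * Cs ^ 4 * Real.exp (-(t / T) ^ 2) +
      (512 * Cz ^ 4 * T * Real.exp (-(t / 1) ^ 2) +
        8 * (Real.exp (-(t / T) ^ 2) *
      (∫ v : ℝ, (F1 Cz e T (t + v) + F2 Cz Ct T (t + v)) * Real.exp (-(1 / 2 * v ^ 2))) ^ 4))) := by
    intro t
    have h1 := hp T t hT
    set A : ℝ := ∫ v : ℝ, (F1 Cz e T (t + v) + F2 Cz Ct T (t + v)) *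
      Real.exp (-(1 / 2 * v ^ 2)) with hAdef
    set w : ℝ := Real.exp (-(t / T) ^ 2) with hw
    have hw0 : 0 ≤ w := (Real.exp_pos _).le
    have hw1 : w ≤ 1 := by
      rw [hw]; exact Real.exp_le_one_iff.mpr (by nlinarith [sq_nonneg (t / T)])
    set g : ℝ := Real.exp (-t ^ 2) with hg
    have hg0 : 0 ≤ g := (Real.exp_pos _).le
    have hg1 : g ≤ 1 := by
      rw [hg]; exact Real.exp_le_one_iff.mpr (by nlinarith [sq_nonneg t])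
    have hg' : Real.exp (-(t / 1) ^ 2) = g := by rw [div_one]
    have h2 : ‖riemannZeta (1 / 2 + (t : ℂ) * Complex.I)‖ ^ 4 ≤
        ((‖P0 e T (-t)‖ + Cs + Cz * Real.sqrt (Real.sqrt T) * g) + A) ^ 4 :=
      pow_le_pow_left₀ (norm_nonneg _) h1 4
    have h3 := pow4_add2 (‖P0 e T (-t)‖ + Cs + Cz * Real.sqrt (Real.sqrt T) * g) A
    have h4 := pow4_add3 ‖P0 e T (-t)‖ Cs (Cz * Real.sqrt (Real.sqrt T) * g)
    have h5 : (Cz * Real.sqrt (Real.sqrt T) * g) ^ 4 ≤ Cz ^ 4 * T * g := by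
      have h6 : (Real.sqrt (Real.sqrt T)) ^ 4 = T := by
        rw [show (4 : ℕ) = 2 * 2 from rfl, pow_mul, Real.sq_sqrt (Real.sqrt_nonneg T),
          Real.sq_sqrt hT0.le]
      have h7 : g ^ 4 ≤ g := by
        calc g ^ 4 ≤ g ^ 1 := pow_le_pow_of_le_one hg0 hg1 (by norm_num)
          _ = g := pow_one g
      calc (Cz * Real.sqrt (Real.sqrt T) * g) ^ 4 = Cz ^ 4 * (Real.sqrt (Real.sqrt T)) ^ 4 * g ^ 4 := by
            ring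
        _ ≤ Cz ^ 4 * T * g := by rw [h6]; gcongr
    have h8 : ‖riemannZeta (1 / 2 + (t : ℂ) * Complex.I)‖ ^ 4 ≤
        512 * ‖P0 e T (-t)‖ ^ 4 + 512 * Cs ^ 4 + 512 * (Cz ^ 4 * T * g) + 8 * A ^ 4 := by
      linarith
    have h9 : w * (512 * (Cz ^ 4 * T * g)) ≤ 1 * (512 * (Cz ^ 4 * T * g)) :=
      mul_le_mul_of_nonneg_right hw1 (by positivity)
    rw [hg']
    have h10 := mul_le_mul_of_nonneg_left h8 hw0
    linarith
  have hP0 : Continuous (fun t => P0 e T (-t)) := (P0_cont e T).comp continuous_neg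
  have s1 := lint_add2 (by fun_prop) (by positivity) (by positivity) d2 d3
  refine (lint_add3 (by fun_prop) (by fun_prop) (by positivity) (by positivity) (by positivity)
    d0 d1 s1 hA4).trans (ENNReal.ofReal_le_ofReal ?_)
  have h1 := one_le_pow_T he hT
  have e1 : 512 * Cs ^ 4 * (Real.sqrt Real.pi * T) ≤
      512 * Cs ^ 4 * Real.sqrt Real.pi * T ^ (1 + 9 * e) := by
    calc _ = 512 * Cs ^ 4 * Real.sqrt Real.pi * T := by ring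
      _ ≤ _ := by gcongr
  have e2 : 512 * Cz ^ 4 * T * (Real.sqrt Real.pi * 1) ≤
      512 * Cz ^ 4 * Real.sqrt Real.pi * T ^ (1 + 9 * e) := by
    calc _ = 512 * Cz ^ 4 * Real.sqrt Real.pi * T := by ring
      _ ≤ _ := by gcongr
  have e3 : 8 * (Cv * ((8 * Cz ^ 4 * Real.exp 9 * (24 * Ca) +
      (64 * Cz ^ 4 * Real.exp 9 * (12 * Cb) +
      64 * Cz ^ 4 * Real.exp 9 * Ct ^ 4 * (2 * Real.sqrt Real.pi))) * T ^ (1 + 9 * e))) =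
      8 * D * T ^ (1 + 9 * e) := by rw [hD]; ring
  rw [e3]
  linarith

theorem fourthMoment (ha : FMmv4a) (hb : FMmv4b) (hA : FMafe) : FourthMoment := by
  intro ε hε
  set e : ℝ := min ε 1 / 16 with hedef
  have hm : 0 < min ε 1 := lt_min hε one_pos
  have he : 0 < e := by positivity
  have he1 : e ≤ 1 / 16 := by
    have := min_le_right ε 1
    rw [hedef]; linarith
  have he2 : 9 * e ≤ ε := by
    have := min_le_left ε 1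
    rw [hedef]; linarith
  obtain ⟨C, hC, h⟩ := lint_zeta ha hb hA he he1
  refine ⟨C * 2 ^ (1 + ε), by positivity, fun T hT => ?_⟩
  have hT0 : 0 < T := by linarith
  have h1 := h (2 * T) (by linarith)
  have h2 : ∫⁻ t : ℝ, ENNReal.ofReal ‖Real.exp (-(t / T) ^ 2) *
      ‖riemannZeta (1 / 2 + (t : ℂ) * Complex.I)‖ ^ 4‖ ≤
      ENNReal.ofReal (C * (2 * T) ^ (1 + 9 * e)) := by
    refine (lintegral_mono fun t => ENNReal.ofReal_le_ofReal ?_).trans h1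
    rw [Real.norm_eq_abs, abs_of_nonneg (by positivity)]
    apply mul_le_mul_of_nonneg_right _ (by positivity)
    apply Real.exp_le_exp.mpr
    apply neg_le_neg
    rw [div_pow, div_pow]
    apply div_le_div_of_nonneg_left (sq_nonneg _) (by positivity)
    nlinarith
  calc ∫ t : ℝ, Real.exp (-(t / T) ^ 2) * ‖riemannZeta (1 / 2 + (t : ℂ) * Complex.I)‖ ^ 4
      ≤ ‖∫ t : ℝ, Real.exp (-(t / T) ^ 2) * ‖riemannZeta (1 / 2 + (t : ℂ) * Complex.I)‖ ^ 4‖ :=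
        Real.le_norm_self _
    _ ≤ (∫⁻ t : ℝ, ENNReal.ofReal ‖Real.exp (-(t / T) ^ 2) *
      ‖riemannZeta (1 / 2 + (t : ℂ) * Complex.I)‖ ^ 4‖).toReal :=
        norm_integral_le_lintegral_norm _
    _ ≤ (ENNReal.ofReal (C * (2 * T) ^ (1 + 9 * e))).toReal :=
        ENNReal.toReal_mono ENNReal.ofReal_ne_top h2
    _ = C * (2 * T) ^ (1 + 9 * e) := ENNReal.toReal_ofReal (by positivity)
    _ ≤ C * (2 * T) ^ (1 + ε) := by
        apply mul_le_mul_of_nonneg_left _ hC.le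
        exact Real.rpow_le_rpow_of_exponent_le (by linarith) (by linarith)
    _ = C * 2 ^ (1 + ε) * T ^ (1 + ε) := by
        rw [Real.mul_rpow (by norm_num) hT0.le]; ring

end Pool.Agent.Helper52.KC
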