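import Mathlib

/-!
# Project KS, module FM-5, part 1: averaging with a Gaussian
-/

set_option autoImplicit false
open MeasureTheory Filter Topology Finset

namespace Pool.Agent.Helper52.KC

/-- polynomial growth against a Gaussian -/
theorem pow_le_gauss (n : ℕ) {b : ℝ} (hb : 0 < b) {x : ℝ} (hx : 0 ≤ x) :
    (1 + x) ^ n ≤ Real.exp ((n : ℝ) ^ 2 / (4 * b)) * Real.exp (b * x ^ 2) := by
  have h1 : (1 + x) ^ n ≤ Real.exp (n * x) := by
    rw [mul_comm, Real.exp_mul, Real.rpow_natCast]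
    exact pow_le_pow_left₀ (by linarith) (by linarith [Real.add_one_le_exp x]) n
  refine h1.trans ?_
  rw [← Real.exp_add]
  apply Real.exp_le_exp.mpr
  have : 0 ≤ (2 * b * x - n) ^ 2 / (4 * b) := by positivity
  have h2 : (2 * b * x - n) ^ 2 / (4 * b) = b * x ^ 2 - n * x + (n : ℝ) ^ 2 / (4 * b) := by
    field_simp
    ring
  linarith

theorem gint {b : ℝ} (hb : 0 < b) : Integrable (fun t : ℝ => Real.exp (-(b * t ^ 2))) := by
  have := integrable_exp_neg_mul_sq hb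
  refine this.congr (Eventually.of_forall fun t => ?_)
  simp only [neg_mul]

/-- integrability of a function of polynomial growth against a Gaussian -/
theorem poly_gauss_integrable {h : ℝ → ℝ} (hc : Continuous h) {K : ℝ} {n : ℕ} (hK : 0 ≤ K)
    (hb : ∀ v, |h v| ≤ K * (1 + |v|) ^ n) {b : ℝ} (hb0 : 0 < b) :
    Integrable (fun v => h v * Real.exp (-(b * v ^ 2))) := by
  have hg : Integrable (fun v : ℝ => (K * Real.exp ((n : ℝ) ^ 2 / (4 * (b / 2)))) *
      Real.exp (-((b / 2) * v ^ 2))) := (gint (by positivity)).const_mul _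
  refine hg.mono' (by fun_prop) (Eventually.of_forall fun v => ?_)
  rw [Real.norm_eq_abs, abs_mul, abs_of_pos (Real.exp_pos _)]
  have h1 := pow_le_gauss n (b := b / 2) (by positivity) (abs_nonneg v)
  rw [sq_abs] at h1
  calc |h v| * Real.exp (-(b * v ^ 2))
      ≤ (K * (1 + |v|) ^ n) * Real.exp (-(b * v ^ 2)) :=
        mul_le_mul_of_nonneg_right (hb v) (Real.exp_pos _).le
    _ ≤ (K * (Real.exp ((n : ℝ) ^ 2 / (4 * (b / 2))) * Real.exp (b / 2 * v ^ 2))) *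
          Real.exp (-(b * v ^ 2)) := by gcongr
    _ = (K * Real.exp ((n : ℝ) ^ 2 / (4 * (b / 2)))) * Real.exp (-((b / 2) * v ^ 2)) := by
        rw [show -(b / 2 * v ^ 2) = b / 2 * v ^ 2 + -(b * v ^ 2) by ring, Real.exp_add]
        ring

theorem shift_bound {F : ℝ → ℝ} {K : ℝ} (hK : 0 ≤ K) (h0 : ∀ u, 0 ≤ F u)
    (hF : ∀ u, F u ≤ K * (1 + |u|)) (t : ℝ) (n : ℕ) (v : ℝ) :
    |F (t + v) ^ n| ≤ (K * (1 + |t|)) ^ n * (1 + |v|) ^ n := by
  rw [abs_of_nonneg (pow_nonneg (h0 _) _), ← mul_pow]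
  apply pow_le_pow_left₀ (h0 _)
  refine (hF _).trans ?_
  rw [mul_assoc]
  apply mul_le_mul_of_nonneg_left _ hK
  have := abs_add_le t v
  nlinarith [abs_nonneg t, abs_nonneg v]

theorem shift_integrable {F : ℝ → ℝ} (hc : Continuous F) {K : ℝ} (hK : 0 ≤ K) (h0 : ∀ u, 0 ≤ F u)
    (hF : ∀ u, F u ≤ K * (1 + |u|)) (t : ℝ) (n : ℕ) {b : ℝ} (hb : 0 < b) :
    Integrable (fun v => F (t + v) ^ n * Real.exp (-(b * v ^ 2))) := by
  refine poly_gauss_integrable (h := fun v => F (t + v) ^ n) (K := (K * (1 + |t|)) ^ n) (n := n)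
    (by fun_prop) (by positivity) (fun v => shift_bound hK h0 hF t n v) hb

/-- Cauchy–Schwarz for the Gaussian measure -/
theorem cs_gauss {f : ℝ → ℝ} (h1 : Integrable (fun v => f v * Real.exp (-(1 / 2 * v ^ 2))))
    (h2 : Integrable (fun v => f v ^ 2 * Real.exp (-(1 / 2 * v ^ 2)))) :
    (∫ v, f v * Real.exp (-(1 / 2 * v ^ 2))) ^ 2 ≤
      (∫ v : ℝ, Real.exp (-(1 / 2 * v ^ 2))) * ∫ v, f v ^ 2 * Real.exp (-(1 / 2 * v ^ 2)) := by
  set W := ∫ v : ℝ, Real.exp (-(1 / 2 * v ^ 2)) with hW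
  set A := ∫ v, f v * Real.exp (-(1 / 2 * v ^ 2)) with hA
  set B := ∫ v, f v ^ 2 * Real.exp (-(1 / 2 * v ^ 2)) with hB
  have hi : Integrable (fun v : ℝ => Real.exp (-(1 / 2 * v ^ 2))) := gint (by norm_num)
  have hWpos : 0 < W := by
    rw [hW]
    have : (∫ v : ℝ, Real.exp (-(1 / 2 * v ^ 2))) = Real.sqrt (Real.pi / (1 / 2)) := by
      rw [← integral_gaussian (1 / 2)]
      simp only [neg_mul]
    rw [this]
    positivity
  have hpos : 0 ≤ ∫ v, (W * f v - A) ^ 2 * Real.exp (-(1 / 2 * v ^ 2)) :=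
    integral_nonneg fun v => by positivity
  have hexp : ∫ v, (W * f v - A) ^ 2 * Real.exp (-(1 / 2 * v ^ 2)) =
      W ^ 2 * B - 2 * W * A * A + A ^ 2 * W := by
    have he : (fun v => (W * f v - A) ^ 2 * Real.exp (-(1 / 2 * v ^ 2))) = fun v =>
        (W ^ 2 * (f v ^ 2 * Real.exp (-(1 / 2 * v ^ 2))) -
          2 * W * A * (f v * Real.exp (-(1 / 2 * v ^ 2)))) +
          A ^ 2 * Real.exp (-(1 / 2 * v ^ 2)) := by
      funext v; ring
    have i12 : Integrable (fun v => W ^ 2 * (f v ^ 2 * Real.exp (-(1 / 2 * v ^ 2))) -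
        2 * W * A * (f v * Real.exp (-(1 / 2 * v ^ 2)))) :=
      (h2.const_mul (W ^ 2)).sub (h1.const_mul (2 * W * A))
    rw [he, integral_add i12 (hi.const_mul _),
      integral_sub (h2.const_mul _) (h1.const_mul _), integral_const_mul, integral_const_mul,
      integral_const_mul]
  rw [hexp] at hpos
  have : 0 ≤ W * (W * B - A ^ 2) := by nlinarith
  have := nonneg_of_mul_nonneg_right this hWpos
  linarith

theorem jensen4 {F : ℝ → ℝ} (hc : Continuous F) {K : ℝ} (hK : 0 ≤ K) (h0 : ∀ u, 0 ≤ F u)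
    (hF : ∀ u, F u ≤ K * (1 + |u|)) (t : ℝ) :
    (∫ v, F (t + v) * Real.exp (-(1 / 2 * v ^ 2))) ^ 4 ≤
      (∫ v : ℝ, Real.exp (-(1 / 2 * v ^ 2))) ^ 3 *
        ∫ v, F (t + v) ^ 4 * Real.exp (-(1 / 2 * v ^ 2)) := by
  have i1 : Integrable (fun v => F (t + v) * Real.exp (-(1 / 2 * v ^ 2))) := by
    simpa using shift_integrable hc hK h0 hF t 1 (b := 1 / 2) (by norm_num)
  have i2 := shift_integrable hc hK h0 hF t 2 (b := 1 / 2) (by norm_num)
  have i4 : Integrable (fun v => (F (t + v) ^ 2) ^ 2 * Real.exp (-(1 / 2 * v ^ 2))) := by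
    have := shift_integrable hc hK h0 hF t 4 (b := 1 / 2) (by norm_num)
    refine this.congr (Eventually.of_forall fun v => ?_)
    simp only; ring
  have c1 := cs_gauss (f := fun v => F (t + v)) i1 i2
  have c2 := cs_gauss (f := fun v => F (t + v) ^ 2) i2 i4
  have e4 : ∫ v, (F (t + v) ^ 2) ^ 2 * Real.exp (-(1 / 2 * v ^ 2)) =
      ∫ v, F (t + v) ^ 4 * Real.exp (-(1 / 2 * v ^ 2)) := by
    congr 1; funext v; ring
  rw [e4] at c2
  set W := ∫ v : ℝ, Real.exp (-(1 / 2 * v ^ 2)) with hW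
  have hW0 : 0 ≤ W := integral_nonneg fun v => (Real.exp_pos _).le
  set A := ∫ v, F (t + v) * Real.exp (-(1 / 2 * v ^ 2))
  set B := ∫ v, F (t + v) ^ 2 * Real.exp (-(1 / 2 * v ^ 2))
  set D := ∫ v, F (t + v) ^ 4 * Real.exp (-(1 / 2 * v ^ 2))
  have hB0 : 0 ≤ B := integral_nonneg fun v => by positivity
  calc A ^ 4 = (A ^ 2) ^ 2 := by ring
    _ ≤ (W * B) ^ 2 := pow_le_pow_left₀ (by positivity) c1 2
    _ = W ^ 2 * B ^ 2 := by ring
    _ ≤ W ^ 2 * (W * D) := by gcongr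
    _ = W ^ 3 * D := by ring

/-- the averaging lemma -/
theorem avg4 : ∃ C : ℝ, 0 < C ∧ ∀ (F : ℝ → ℝ) (K T : ℝ), Continuous F → 0 ≤ K → (∀ u, 0 ≤ F u) →
    (∀ u, F u ≤ K * (1 + |u|)) → 2 ≤ T →
    ∫⁻ t, ENNReal.ofReal (Real.exp (-(t / T) ^ 2) *
        (∫ v, F (t + v) * Real.exp (-(1 / 2 * v ^ 2))) ^ 4) ≤
      ENNReal.ofReal C * ∫⁻ u, ENNReal.ofReal (Real.exp (-(u ^ 2 / (2 * T ^ 2))) * F u ^ 4) := by
  set W := ∫ v : ℝ, Real.exp (-(1 / 2 * v ^ 2)) with hW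
  have hW0 : 0 ≤ W := integral_nonneg fun v => (Real.exp_pos _).le
  set V := ∫ v : ℝ, Real.exp (-(1 / 4 * v ^ 2)) with hV
  have hV0 : 0 ≤ V := integral_nonneg fun v => (Real.exp_pos _).le
  refine ⟨W ^ 3 * V + 1, by positivity, ?_⟩
  intro F K T hc hK h0 hF hT
  have hT0 : 0 < T := by linarith
  set J := ∫⁻ u, ENNReal.ofReal (Real.exp (-(u ^ 2 / (2 * T ^ 2))) * F u ^ 4) with hJ
  have step1 : ∀ t, ENNReal.ofReal (Real.exp (-(t / T) ^ 2) *
        (∫ v, F (t + v) * Real.exp (-(1 / 2 * v ^ 2))) ^ 4) ≤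
      ENNReal.ofReal (W ^ 3) * ∫⁻ v, ENNReal.ofReal (Real.exp (-(t / T) ^ 2) *
        (F (t + v) ^ 4 * Real.exp (-(1 / 2 * v ^ 2)))) := by
    intro t
    have i4 := (shift_integrable hc hK h0 hF t 4 (b := 1 / 2) (by norm_num)).const_mul
      (Real.exp (-(t / T) ^ 2))
    rw [← ofReal_integral_eq_lintegral_ofReal i4 (Eventually.of_forall fun v => by positivity),
      ← ENNReal.ofReal_mul (by positivity)]
    apply ENNReal.ofReal_le_ofReal
    rw [integral_const_mul]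
    calc _ ≤ Real.exp (-(t / T) ^ 2) * (W ^ 3 *
          ∫ v, F (t + v) ^ 4 * Real.exp (-(1 / 2 * v ^ 2))) := by
          gcongr
          exact jensen4 hc hK h0 hF t
      _ = _ := by ring
  have step2 : ∀ v, ∫⁻ t, ENNReal.ofReal (Real.exp (-(t / T) ^ 2) *
        (F (t + v) ^ 4 * Real.exp (-(1 / 2 * v ^ 2)))) ≤
      ENNReal.ofReal (Real.exp (-(1 / 4 * v ^ 2))) * J := by
    intro v
    have e1 : ∫⁻ t, ENNReal.ofReal (Real.exp (-(t / T) ^ 2) *
        (F (t + v) ^ 4 * Real.exp (-(1 / 2 * v ^ 2)))) =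
        ∫⁻ u, ENNReal.ofReal (Real.exp (-((u - v) / T) ^ 2) *
        (F u ^ 4 * Real.exp (-(1 / 2 * v ^ 2)))) := by
      rw [← lintegral_add_right_eq_self (fun u => ENNReal.ofReal (Real.exp (-((u - v) / T) ^ 2) *
        (F u ^ 4 * Real.exp (-(1 / 2 * v ^ 2))))) v]
      simp only [add_sub_cancel_right]
    rw [e1, hJ, ← lintegral_const_mul' _ _ ENNReal.ofReal_ne_top]
    apply lintegral_mono
    intro u
    simp only
    rw [← ENNReal.ofReal_mul (Real.exp_pos _).le]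
    apply ENNReal.ofReal_le_ofReal
    have hexp : Real.exp (-((u - v) / T) ^ 2) * Real.exp (-(1 / 2 * v ^ 2)) ≤
        Real.exp (-(1 / 4 * v ^ 2)) * Real.exp (-(u ^ 2 / (2 * T ^ 2))) := by
      rw [← Real.exp_add, ← Real.exp_add]
      apply Real.exp_le_exp.mpr
      have h3 : (v / T) ^ 2 ≤ v ^ 2 / 4 := by
        rw [div_pow]
        apply div_le_div_of_nonneg_left (by positivity) (by norm_num)
        nlinarith
      have h4 : u ^ 2 / (2 * T ^ 2) ≤ ((u - v) / T) ^ 2 + (v / T) ^ 2 := by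
        rw [div_pow, div_pow, ← add_div, div_le_div_iff₀ (by positivity) (by positivity)]
        have : u ^ 2 ≤ 2 * ((u - v) ^ 2 + v ^ 2) := by nlinarith [sq_nonneg (u - 2 * v)]
        nlinarith [sq_nonneg T]
      linarith
    calc Real.exp (-((u - v) / T) ^ 2) * (F u ^ 4 * Real.exp (-(1 / 2 * v ^ 2)))
        = (Real.exp (-((u - v) / T) ^ 2) * Real.exp (-(1 / 2 * v ^ 2))) * F u ^ 4 := by ring
      _ ≤ (Real.exp (-(1 / 4 * v ^ 2)) * Real.exp (-(u ^ 2 / (2 * T ^ 2)))) * F u ^ 4 := by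
          apply mul_le_mul_of_nonneg_right hexp (pow_nonneg (h0 u) 4)
      _ = _ := by ring
  calc ∫⁻ t, ENNReal.ofReal (Real.exp (-(t / T) ^ 2) *
        (∫ v, F (t + v) * Real.exp (-(1 / 2 * v ^ 2))) ^ 4)
      ≤ ∫⁻ t, ENNReal.ofReal (W ^ 3) * ∫⁻ v, ENNReal.ofReal (Real.exp (-(t / T) ^ 2) *
        (F (t + v) ^ 4 * Real.exp (-(1 / 2 * v ^ 2)))) := lintegral_mono step1
    _ = ENNReal.ofReal (W ^ 3) * ∫⁻ t, ∫⁻ v, ENNReal.ofReal (Real.exp (-(t / T) ^ 2) *
        (F (t + v) ^ 4 * Real.exp (-(1 / 2 * v ^ 2)))) :=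
        lintegral_const_mul' _ _ ENNReal.ofReal_ne_top
    _ = ENNReal.ofReal (W ^ 3) * ∫⁻ v, ∫⁻ t, ENNReal.ofReal (Real.exp (-(t / T) ^ 2) *
        (F (t + v) ^ 4 * Real.exp (-(1 / 2 * v ^ 2)))) := by
        congr 1
        apply lintegral_lintegral_swap
        apply Measurable.aemeasurable
        apply ENNReal.measurable_ofReal.comp
        apply Continuous.measurable
        fun_prop
    _ ≤ ENNReal.ofReal (W ^ 3) * ∫⁻ v, ENNReal.ofReal (Real.exp (-(1 / 4 * v ^ 2))) * J := by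
        gcongr with v
        exact step2 v
    _ = ENNReal.ofReal (W ^ 3) * (ENNReal.ofReal V * J) := by
        congr 1
        rw [lintegral_mul_const _ (by fun_prop), hV,
          ofReal_integral_eq_lintegral_ofReal (gint (by norm_num))
            (Eventually.of_forall fun v => (Real.exp_pos _).le)]
    _ = ENNReal.ofReal (W ^ 3 * V) * J := by
        rw [ENNReal.ofReal_mul (by positivity), mul_assoc]
    _ ≤ ENNReal.ofReal (W ^ 3 * V + 1) * J := by
        gcongr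
        linarith

end Pool.Agent.Helper52.KC
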